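import Pool.Agent.Helper14.LE.Stmts2

/-!
# CUT: bounded solutions off the axes are weak solutions
-/

set_option linter.unusedSectionVars false

open MeasureTheory Set Filter Topology InnerProductSpace Laplacian

noncomputable section

namespace LEP

namespace CUT

section green

variable {E : Type} [NormedAddCommGroup E] [InnerProductSpace ℝ E] [FiniteDimensional ℝ E]
  {ι : Type} [Fintype ι]

theorem lap_eq {f : E → ℝ} {x : E} (v : OrthonormalBasis ι ℝ E) (hf : ContDiffAt ℝ 2 f x) :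
    (Δ f) x = ∑ i, fderiv ℝ (fun y => fderiv ℝ f y (v i)) x (v i) := by
  rw [laplacian_eq_iteratedFDeriv_orthonormalBasis f v]
  refine Finset.sum_congr rfl (fun i _ => ?_)
  rw [iteratedFDeriv_two_apply]
  have hd : DifferentiableAt ℝ (fderiv ℝ f) x :=
    (hf.fderiv_right (m := 1) (by norm_num)).differentiableAt (by norm_num)
  rw [fderiv_clm_apply hd (differentiableAt_const _)]
  simp

/-- product of a function continuous on an open set and a function supported there -/
theorem cont_mul {V : Set E} (hV : IsOpen V) {h g : E → ℝ} (hh : ContinuousOn h V)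
    (hg : Continuous g) (hgV : tsupport g ⊆ V) : Continuous (fun x => h x * g x) := by
  rw [continuous_iff_continuousAt]
  intro x
  by_cases hx : x ∈ V
  · exact (hh.continuousAt (hV.mem_nhds hx)).mul hg.continuousAt
  · have hx' : x ∉ tsupport g := fun h => hx (hgV h)
    have h0 : g =ᶠ[𝓝 x] 0 := notMem_tsupport_iff_eventuallyEq.1 hx'
    have : (fun x => h x * g x) =ᶠ[𝓝 x] fun _ => 0 := by
      filter_upwards [h0] with y hy
      rw [hy]
      simp
    exact (continuousAt_const.congr this.symm)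

variable [MeasurableSpace E] [BorelSpace E]

theorem int_mul {V : Set E} (hV : IsOpen V) {h g : E → ℝ} (hh : ContinuousOn h V)
    (hg : Continuous g) (hgc : HasCompactSupport g) (hgV : tsupport g ⊆ V) :
    Integrable (fun x => h x * g x) :=
  (cont_mul hV hh hg hgV).integrable_of_hasCompactSupport hgc.mul_left

/-- Green's identity. -/
theorem green {V : Set E} (hV : IsOpen V) {u ψ : E → ℝ} (hu : ∀ x ∈ V, ContDiffAt ℝ 2 u x)
    (hψ : ContDiff ℝ 2 ψ) (hψc : HasCompactSupport ψ) (hψV : tsupport ψ ⊆ V) :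
    ∫ x, u x * (Δ ψ) x = ∫ x, (Δ u) x * ψ x := by
  set v := stdOrthonormalBasis ℝ E with hv
  have hu1 : ContinuousOn u V := fun x hx => (hu x hx).continuousAt.continuousWithinAt
  have hud : ∀ x ∈ V, DifferentiableAt ℝ u x := fun x hx => (hu x hx).differentiableAt (by norm_num)
  have hfd : ∀ x ∈ V, ContDiffAt ℝ 1 (fderiv ℝ u) x := fun x hx =>
    (hu x hx).fderiv_right (m := 1) (by norm_num)
  have hD1 : ∀ e : E, ∀ x ∈ V, ContDiffAt ℝ 1 (fun y => fderiv ℝ u y e) x := fun e x hx =>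
    (hfd x hx).clm_apply contDiffAt_const
  have hD1c : ∀ e : E, ContinuousOn (fun y => fderiv ℝ u y e) V := fun e x hx =>
    (hD1 e x hx).continuousAt.continuousWithinAt
  have hD2c : ∀ e : E, ContinuousOn (fun y => fderiv ℝ (fun z => fderiv ℝ u z e) y e) V := by
    intro e x hx
    have : ContDiffAt ℝ 0 (fderiv ℝ (fun z => fderiv ℝ u z e)) x :=
      (hD1 e x hx).fderiv_right (m := 0) (by norm_num)
    exact (this.continuousAt.clm_apply continuousAt_const).continuousWithinAt
  have hp1 : ∀ e : E, ContDiff ℝ 1 (fun y => fderiv ℝ ψ y e) := fun e =>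
    (hψ.fderiv_right (m := 1) (by norm_num)).clm_apply contDiff_const
  have hp2 : ∀ e : E, Continuous (fun y => fderiv ℝ (fun z => fderiv ℝ ψ z e) y e) := fun e =>
    ((hp1 e).continuous_fderiv (by norm_num)).clm_apply continuous_const
  have hs1 : ∀ e : E, tsupport (fun y => fderiv ℝ ψ y e) ⊆ tsupport ψ := fun e =>
    tsupport_fderiv_apply_subset ℝ e
  have hs2 : ∀ e : E, tsupport (fun y => fderiv ℝ (fun z => fderiv ℝ ψ z e) y e) ⊆ tsupport ψ :=
    fun e => (tsupport_fderiv_apply_subset ℝ e).trans (hs1 e)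
  have hc1 : ∀ e : E, HasCompactSupport (fun y => fderiv ℝ ψ y e) := fun e =>
    hψc.of_isClosed_subset (isClosed_tsupport _) (hs1 e)
  have hc2 : ∀ e : E, HasCompactSupport (fun y => fderiv ℝ (fun z => fderiv ℝ ψ z e) y e) :=
    fun e => hψc.of_isClosed_subset (isClosed_tsupport _) (hs2 e)
  have key : ∀ e : E, ∫ x, u x * fderiv ℝ (fun z => fderiv ℝ ψ z e) x e =
      ∫ x, fderiv ℝ (fun z => fderiv ℝ u z e) x e * ψ x := by
    intro e
    rw [integral_mul_fderiv_eq_neg_fderiv_mul_of_integrable (f := u)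
      (g := fun z => fderiv ℝ ψ z e) (v := e)
      (int_mul hV (hD1c e) (hp1 e).continuous (hc1 e) ((hs1 e).trans hψV))
      (int_mul hV hu1 (hp2 e) (hc2 e) ((hs2 e).trans hψV))
      (int_mul hV hu1 (hp1 e).continuous (hc1 e) ((hs1 e).trans hψV))
      (fun x hx => hud x (hψV (hs1 e hx)))
      (fun x _ => (hp1 e).differentiable (by norm_num) x)]
    rw [integral_mul_fderiv_eq_neg_fderiv_mul_of_integrable (f := fun z => fderiv ℝ u z e)
      (g := ψ) (v := e)
      (int_mul hV (hD2c e) hψ.continuous hψc hψV)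
      (int_mul hV (hD1c e) (hp1 e).continuous (hc1 e) ((hs1 e).trans hψV))
      (int_mul hV (hD1c e) hψ.continuous hψc hψV)
      (fun x hx => (hD1 e x (hψV hx)).differentiableAt (by norm_num))
      (fun x _ => hψ.differentiable (by norm_num) x)]
    rw [neg_neg]
  have e1 : ∀ x, u x * (Δ ψ) x = ∑ i, u x * fderiv ℝ (fun z => fderiv ℝ ψ z (v i)) x (v i) := by
    intro x
    rw [lap_eq v hψ.contDiffAt, Finset.mul_sum]
  have e2 : ∀ x, (Δ u) x * ψ x = ∑ i, fderiv ℝ (fun z => fderiv ℝ u z (v i)) x (v i) * ψ x := by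
    intro x
    by_cases hx : x ∈ V
    · rw [lap_eq v (hu x hx), Finset.sum_mul]
    · have h0 : ψ x = 0 := image_eq_zero_of_notMem_tsupport (fun h => hx (hψV h))
      simp [h0]
  simp_rw [e1, e2]
  rw [integral_finsetSum _ (fun i _ => int_mul hV hu1 (hp2 (v i)) (hc2 (v i))
    ((hs2 (v i)).trans hψV)), integral_finsetSum _ (fun i _ => int_mul hV (hD2c (v i))
    hψ.continuous hψc hψV)]
  exact Finset.sum_congr rfl (fun i _ => key (v i))

end green

section chi

/-- the one-dimensional cutoff -/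
def chi (t : ℝ) : ℝ := Real.smoothTransition (t - 1)

theorem chi_smooth {n : ℕ∞} : ContDiff ℝ n chi :=
  Real.smoothTransition.contDiff.comp (contDiff_id.sub contDiff_const)

theorem chi_zero {t : ℝ} (h : t ≤ 1) : chi t = 0 :=
  Real.smoothTransition.zero_of_nonpos (by linarith)

theorem chi_one {t : ℝ} (h : 2 ≤ t) : chi t = 1 :=
  Real.smoothTransition.one_of_one_le (by linarith)

theorem chi_abs (t : ℝ) : |chi t| ≤ 1 := by
  unfold chi
  rw [abs_of_nonneg (Real.smoothTransition.nonneg _)]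
  exact Real.smoothTransition.le_one _

theorem chi_d_big {t : ℝ} (h : 2 < t) : deriv chi t = 0 ∧ deriv (deriv chi) t = 0 := by
  have h1 : ∀ s, 2 < s → deriv chi s = 0 := by
    intro s hs
    have : chi =ᶠ[𝓝 s] fun _ => 1 := by
      filter_upwards [eventually_gt_nhds hs] with y hy
      exact chi_one hy.le
    rw [this.deriv_eq]
    simp
  refine ⟨h1 t h, ?_⟩
  have : deriv chi =ᶠ[𝓝 t] fun _ => 0 := by
    filter_upwards [eventually_gt_nhds h] with y hy
    exact h1 y hy
  rw [this.deriv_eq]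
  simp

theorem chi_d_small {t : ℝ} (h : t < 1) : deriv chi t = 0 ∧ deriv (deriv chi) t = 0 := by
  have h1 : ∀ s, s < 1 → deriv chi s = 0 := by
    intro s hs
    have : chi =ᶠ[𝓝 s] fun _ => 0 := by
      filter_upwards [eventually_lt_nhds hs] with y hy
      exact chi_zero hy.le
    rw [this.deriv_eq]
    simp
  refine ⟨h1 t h, ?_⟩
  have : deriv chi =ᶠ[𝓝 t] fun _ => 0 := by
    filter_upwards [eventually_lt_nhds h] with y hy
    exact h1 y hy
  rw [this.deriv_eq]
  simp

theorem chi_d1 : ContDiff ℝ 2 (deriv chi) := by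
  have : ContDiff ℝ (2 + 1) chi := chi_smooth (n := 3)
  exact (contDiff_succ_iff_deriv.1 this).2.2

theorem chi_d2 : Continuous (deriv (deriv chi)) := by
  have : ContDiff ℝ (1 + 1) (deriv chi) := chi_d1
  exact (contDiff_succ_iff_deriv.1 this).2.2.continuous

theorem chi_bound : ∃ C : ℝ, 1 ≤ C ∧ ∀ t, |deriv chi t| ≤ C ∧ |deriv (deriv chi) t| ≤ C := by
  have hout : ∀ t : ℝ, t ∉ Icc (1 : ℝ) 2 → t < 1 ∨ 2 < t := by
    intro t ht
    rw [mem_Icc, not_and_or, not_le, not_le] at ht
    exact ht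
  have c1 : HasCompactSupport (deriv chi) := HasCompactSupport.intro isCompact_Icc
    (fun t ht => (hout t ht).elim (fun h => (chi_d_small h).1) (fun h => (chi_d_big h).1))
  have c2 : HasCompactSupport (deriv (deriv chi)) := HasCompactSupport.intro isCompact_Icc
    (fun t ht => (hout t ht).elim (fun h => (chi_d_small h).2) (fun h => (chi_d_big h).2))
  obtain ⟨C1, h1⟩ := chi_d1.continuous.bounded_above_of_compact_support c1
  obtain ⟨C2, h2⟩ := chi_d2.bounded_above_of_compact_support c2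
  refine ⟨max 1 (max C1 C2), le_max_left _ _, fun t => ⟨?_, ?_⟩⟩
  · exact (h1 t).trans ((le_max_left _ _).trans (le_max_right _ _))
  · exact (h2 t).trans ((le_max_right _ _).trans (le_max_right _ _))

end chi

section dcalc

variable {E : Type} [NormedAddCommGroup E] [NormedSpace ℝ E]

/-- derivative in the direction `e` -/
def D (e : E) (f : E → ℝ) : E → ℝ := fun y => fderiv ℝ f y e

theorem D_mul {f g : E → ℝ} (e : E) (hf : Differentiable ℝ f) (hg : Differentiable ℝ g) :
    D e (fun z => f z * g z) = fun y => D e f y * g y + f y * D e g y := by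
  funext y
  unfold D
  rw [fderiv_fun_mul (hf y) (hg y)]
  simp only [add_apply, smul_apply, smul_eq_mul]
  ring

theorem D_add {f g : E → ℝ} (e : E) (hf : Differentiable ℝ f) (hg : Differentiable ℝ g) :
    D e (fun z => f z + g z) = fun y => D e f y + D e g y := by
  funext y
  unfold D
  rw [fderiv_fun_add (hf y) (hg y)]
  simp only [add_apply]

theorem D_contDiff {f : E → ℝ} (e : E) (hf : ContDiff ℝ 2 f) : ContDiff ℝ 1 (D e f) :=
  (hf.fderiv_right (m := 1) (by norm_num)).clm_apply contDiff_const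

theorem DD_cont {f : E → ℝ} (e : E) (hf : ContDiff ℝ 2 f) : Continuous (D e (D e f)) :=
  ((D_contDiff e hf).continuous_fderiv (by norm_num)).clm_apply continuous_const

theorem DD_mul {f g : E → ℝ} (e : E) (hf : ContDiff ℝ 2 f) (hg : ContDiff ℝ 2 g) :
    D e (D e (fun z => f z * g z)) =
      fun y => D e (D e f) y * g y + 2 * (D e f y * D e g y) + f y * D e (D e g) y := by
  have f1 := hf.differentiable (by norm_num)
  have g1 := hg.differentiable (by norm_num)
  have f2 := (D_contDiff e hf).differentiable (by norm_num)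
  have g2 := (D_contDiff e hg).differentiable (by norm_num)
  have h1 : Differentiable ℝ (fun z => D e f z * g z) := f2.mul g1
  have h2 : Differentiable ℝ (fun z => f z * D e g z) := f1.mul g2
  rw [D_mul e f1 g1, D_add e h1 h2, D_mul e f2 g1, D_mul e f1 g2]
  funext y
  ring

end dcalc

section cutoff

/-- partial sums of squares -/
def sJ (J : Finset (Fin 6)) (x : E6) : ℝ := ∑ j ∈ J, (x j) ^ 2

/-- cutoff near the subspace `x_j = 0` for `j ∈ J` -/
def aJ (J : Finset (Fin 6)) (c : ℝ) (x : E6) : ℝ := chi (c * sJ J x)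

/-- the basis vectors -/
def ei (i : Fin 6) : E6 := EuclideanSpace.basisFun (Fin 6) ℝ i

theorem sJ_contDiff (J : Finset (Fin 6)) {n : ℕ∞} : ContDiff ℝ n (sJ J) := by
  unfold sJ
  fun_prop

theorem aJ_contDiff (J : Finset (Fin 6)) (c : ℝ) {n : ℕ∞} : ContDiff ℝ n (aJ J c) :=
  chi_smooth.comp (contDiff_const.mul (sJ_contDiff J))

theorem sJ_D (J : Finset (Fin 6)) (i : Fin 6) : D (ei i) (sJ J) =
    fun x => if i ∈ J then 2 * x i else 0 := by
  funext x
  have h : HasFDerivAt (sJ J) (∑ j ∈ J, (2 * x j) • (EuclideanSpace.proj j : E6 →L[ℝ] ℝ)) x := by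
    unfold sJ
    refine HasFDerivAt.fun_sum (fun j _ => ?_)
    have h1 := ((EuclideanSpace.proj (𝕜 := ℝ) j : E6 →L[ℝ] ℝ).hasFDerivAt (x := x)).pow 2
    simpa using h1
  unfold D
  rw [h.fderiv]
  simp [ei, EuclideanSpace.basisFun_apply]

theorem proj_D (i : Fin 6) : D (ei i) (fun x : E6 => x i) = fun _ => 1 := by
  funext x
  have h := (EuclideanSpace.proj (𝕜 := ℝ) i : E6 →L[ℝ] ℝ).hasFDerivAt (x := x)
  have h2 : fderiv ℝ (fun x : E6 => x i) x = (EuclideanSpace.proj (𝕜 := ℝ) i : E6 →L[ℝ] ℝ) :=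
    h.fderiv
  unfold D
  rw [h2]
  simp [ei, EuclideanSpace.basisFun_apply]

theorem comp_D {F : Type} [NormedAddCommGroup F] [NormedSpace ℝ F] {g : ℝ → ℝ} {f : F → ℝ} (e : F)
    (hg : Differentiable ℝ g) (hf : Differentiable ℝ f) :
    D e (fun x => g (f x)) = fun x => deriv g (f x) * D e f x := by
  funext x
  have h := (hg (f x)).hasDerivAt.comp_hasFDerivAt x (hf x).hasFDerivAt
  unfold D
  have h2 : fderiv ℝ (fun x => g (f x)) x = deriv g (f x) • fderiv ℝ f x := h.fderiv
  rw [h2]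
  simp

theorem csJ_D (J : Finset (Fin 6)) (c : ℝ) (i : Fin 6) : D (ei i) (fun x => c * sJ J x) =
    fun x => c * (if i ∈ J then 2 * x i else 0) := by
  have h1 := D_mul (f := fun _ : E6 => c) (g := sJ J) (ei i) (differentiable_const c)
    ((sJ_contDiff J (n := 1)).differentiable (by norm_num))
  rw [h1, sJ_D]
  funext x
  unfold D
  simp

theorem aJ_D (J : Finset (Fin 6)) (c : ℝ) (i : Fin 6) : D (ei i) (aJ J c) =
    fun x => deriv chi (c * sJ J x) * (c * (if i ∈ J then 2 * x i else 0)) := by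
  have h := comp_D (g := chi) (f := fun x => c * sJ J x) (ei i)
    ((chi_smooth (n := 1)).differentiable (by norm_num))
    ((contDiff_const.mul (sJ_contDiff J (n := 1))).differentiable (by norm_num))
  rw [csJ_D] at h
  exact h

theorem aJ_DD (J : Finset (Fin 6)) (c : ℝ) (i : Fin 6) : D (ei i) (D (ei i) (aJ J c)) =
    fun x => deriv (deriv chi) (c * sJ J x) * (c * (if i ∈ J then 2 * x i else 0)) ^ 2 +
      deriv chi (c * sJ J x) * (c * (if i ∈ J then 2 else 0)) := by
  rw [aJ_D]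
  have h1 := comp_D (g := deriv chi) (f := fun x => c * sJ J x) (ei i)
    (chi_d1.differentiable (by norm_num))
    ((contDiff_const.mul (sJ_contDiff J (n := 1))).differentiable (by norm_num))
  rw [csJ_D] at h1
  have hq : D (ei i) (fun x : E6 => c * (if i ∈ J then 2 * x i else 0)) =
      fun _ => c * (if i ∈ J then 2 else 0) := by
    by_cases hi : i ∈ J
    · simp only [hi, if_true]
      have h2 := D_mul (f := fun _ : E6 => c * 2) (g := fun x : E6 => x i) (ei i)
        (differentiable_const _) (by fun_prop)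
      rw [proj_D] at h2
      have e1 : (fun x : E6 => c * (2 * x i)) = fun x : E6 => c * 2 * x i := by
        funext x
        ring
      rw [e1, h2]
      funext x
      unfold D
      simp
    · simp only [hi, if_false, mul_zero]
      funext x
      unfold D
      simp
  have hd1 : Differentiable ℝ (fun x => deriv chi (c * sJ J x)) :=
    (chi_d1.differentiable (by norm_num)).comp
      ((contDiff_const.mul (sJ_contDiff J (n := 1))).differentiable (by norm_num))
  have hd2 : Differentiable ℝ (fun x : E6 => c * (if i ∈ J then 2 * x i else 0)) := by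
    by_cases hi : i ∈ J
    · simp only [hi, if_true]
      fun_prop
    · simp only [hi, if_false]
      fun_prop
  rw [D_mul (ei i) hd1 hd2, h1, hq]
  funext x
  ring

end cutoff

section bounds

theorem coord_le {J : Finset (Fin 6)} {m : ℝ} {x : E6} {i : Fin 6} (hi : i ∈ J)
    (h : m ^ 2 * sJ J x ≤ 2) : |m * x i| ≤ 2 := by
  have h1 : (x i) ^ 2 ≤ sJ J x :=
    Finset.single_le_sum (f := fun j => (x j) ^ 2) (fun j _ => sq_nonneg _) hi
  have h2 : (m * x i) ^ 2 ≤ 2 ^ 2 := by
    have := mul_le_mul_of_nonneg_left h1 (sq_nonneg m)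
    rw [mul_pow]
    linarith
  exact abs_le_of_sq_le_sq h2 (by norm_num)

theorem aJ_abs (J : Finset (Fin 6)) (c : ℝ) (x : E6) : |aJ J c x| ≤ 1 := chi_abs _

theorem aJ_D_zero {J : Finset (Fin 6)} {c : ℝ} {x : E6} (h : 2 < c * sJ J x) (i : Fin 6) :
    D (ei i) (aJ J c) x = 0 ∧ D (ei i) (D (ei i) (aJ J c)) x = 0 := by
  rw [aJ_DD, aJ_D]
  obtain ⟨h1, h2⟩ := chi_d_big h
  simp [h1, h2]

theorem aJ_D_bound {C : ℝ} (hC : ∀ t, |deriv chi t| ≤ C ∧ |deriv (deriv chi) t| ≤ C)
    (J : Finset (Fin 6)) {m : ℝ} (hm : 1 ≤ m) (i : Fin 6) (x : E6) :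
    |D (ei i) (aJ J (m ^ 2)) x| ≤ 4 * C * m ∧
      |D (ei i) (D (ei i) (aJ J (m ^ 2))) x| ≤ 18 * C * m ^ 2 := by
  have hC0 : 0 ≤ C := (abs_nonneg _).trans (hC 0).1
  rcases lt_or_ge 2 (m ^ 2 * sJ J x) with h | h
  · obtain ⟨h1, h2⟩ := aJ_D_zero h i
    rw [h1, h2, abs_zero]
    exact ⟨by positivity, by positivity⟩
  · rw [aJ_DD, aJ_D]
    set y : ℝ := m ^ 2 * sJ J x with hy
    have hz : |m ^ 2 * (if i ∈ J then 2 * x i else 0)| ≤ 4 * m := by
      by_cases hi : i ∈ J
      · simp only [hi, if_true]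
        have h1 := coord_le hi h
        have : m ^ 2 * (2 * x i) = 2 * m * (m * x i) := by ring
        rw [this, abs_mul, abs_of_pos (by linarith : (0 : ℝ) < 2 * m)]
        nlinarith
      · simp only [hi, if_false, mul_zero, abs_zero]
        linarith
    have hw : |m ^ 2 * (if i ∈ J then (2 : ℝ) else 0)| ≤ 2 * m ^ 2 := by
      by_cases hi : i ∈ J
      · simp only [hi, if_true]
        rw [abs_of_nonneg (by positivity)]
        linarith
      · simp only [hi, if_false, mul_zero, abs_zero]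
        positivity
    set z : ℝ := m ^ 2 * (if i ∈ J then 2 * x i else 0) with hzz
    set w : ℝ := m ^ 2 * (if i ∈ J then (2 : ℝ) else 0) with hww
    obtain ⟨c1, c2⟩ := hC y
    have hz0 := abs_nonneg z
    constructor
    · change |deriv chi y * z| ≤ _
      rw [abs_mul]
      calc |deriv chi y| * |z| ≤ C * (4 * m) := mul_le_mul c1 hz hz0 hC0
        _ = 4 * C * m := by ring
    · change |deriv (deriv chi) y * z ^ 2 + deriv chi y * w| ≤ _
      refine (abs_add_le _ _).trans ?_
      rw [abs_mul, abs_mul, abs_pow]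
      have h1 : |z| ^ 2 ≤ (4 * m) ^ 2 := pow_le_pow_left₀ hz0 hz 2
      have h2 : |deriv (deriv chi) y| * |z| ^ 2 ≤ C * (4 * m) ^ 2 :=
        mul_le_mul c2 h1 (by positivity) hC0
      have h3 : |deriv chi y| * |w| ≤ C * (2 * m ^ 2) := mul_le_mul c1 hw (abs_nonneg w) hC0
      nlinarith

/-- the box -/
def box (J : Finset (Fin 6)) (m R : ℝ) : Set E6 :=
  {x | ∀ i, |x i| ≤ if i ∈ J then 2 / m else R}

theorem box_eq (J : Finset (Fin 6)) (m R : ℝ) : box J m R =
    (WithLp.ofLp : E6 → (Fin 6 → ℝ)) ⁻¹' (Icc (fun i => -(if i ∈ J then 2 / m else R))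
      (fun i => if i ∈ J then 2 / m else R)) := by
  ext x
  simp only [box, mem_ofPred_eq, mem_preimage, mem_Icc, Pi.le_def, abs_le]
  exact forall_and

theorem box_vol (J : Finset (Fin 6)) {m R : ℝ} (hm : 0 < m) (hR : 0 ≤ R) :
    volume (box J m R) < ⊤ ∧ (volume (box J m R)).toReal =
      ∏ i : Fin 6, (2 * if i ∈ J then 2 / m else R) := by
  have hmp := PiLp.volume_preserving_ofLp (Fin 6)
  have h1 : volume (box J m R) = volume (Icc (fun i : Fin 6 => -(if i ∈ J then 2 / m else R))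
      (fun i => if i ∈ J then 2 / m else R)) := by
    rw [box_eq]
    exact hmp.measure_preimage measurableSet_Icc.nullMeasurableSet
  have hle : (fun i : Fin 6 => -(if i ∈ J then 2 / m else R)) ≤
      (fun i => if i ∈ J then 2 / m else R) := by
    intro i
    have : 0 ≤ (if i ∈ J then 2 / m else R) := by
      split_ifs
      · positivity
      · exact hR
    dsimp only
    linarith
  constructor
  · rw [h1]
    exact isCompact_Icc.measure_lt_top
  · rw [h1, Real.volume_Icc_pi_toReal hle]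
    refine Finset.prod_congr rfl (fun i _ => ?_)
    ring

theorem mem_box {J : Finset (Fin 6)} {m R : ℝ} (hm : 0 < m) {x : E6}
    (h : m ^ 2 * sJ J x ≤ 2) (hx : ‖x‖ ≤ R) : x ∈ box J m R := by
  intro i
  by_cases hi : i ∈ J
  · simp only [hi, if_true]
    have h1 := coord_le hi h
    rw [abs_mul, abs_of_pos hm] at h1
    rw [le_div_iff₀ hm]
    linarith
  · simp only [hi, if_false]
    have := PiLp.norm_apply_le x i
    exact this.trans hx

/-- the index sets -/
def JA : Finset (Fin 6) := {0, 1, 2}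

/-- the index sets -/
def JB : Finset (Fin 6) := {3, 4, 5}

theorem boxA_vol {m R : ℝ} (hm : 0 < m) (hR : 0 ≤ R) : volume (box JA m R) < ⊤ ∧
    (volume (box JA m R)).toReal = (4 / m) ^ 3 * (2 * R) ^ 3 := by
  obtain ⟨h1, h2⟩ := box_vol JA hm hR
  refine ⟨h1, ?_⟩
  rw [h2, Fin.prod_univ_six]
  simp only [JA]
  norm_num [Finset.mem_insert, Finset.mem_singleton, Fin.ext_iff]
  ring

theorem boxB_vol {m R : ℝ} (hm : 0 < m) (hR : 0 ≤ R) : volume (box JB m R) < ⊤ ∧
    (volume (box JB m R)).toReal = (4 / m) ^ 3 * (2 * R) ^ 3 := by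
  obtain ⟨h1, h2⟩ := box_vol JB hm hR
  refine ⟨h1, ?_⟩
  rw [h2, Fin.prod_univ_six]
  simp only [JB]
  norm_num [Finset.mem_insert, Finset.mem_singleton, Fin.ext_iff]
  ring

end bounds

section eta

/-- the cutoff near both subspaces -/
def eta (m : ℝ) (x : E6) : ℝ := aJ JA (m ^ 2) x * aJ JB (m ^ 2) x

theorem eta_contDiff (m : ℝ) {n : ℕ∞} : ContDiff ℝ n (eta m) :=
  (aJ_contDiff JA _).mul (aJ_contDiff JB _)

theorem eta_abs (m : ℝ) (x : E6) : |eta m x| ≤ 1 := by
  unfold eta
  rw [abs_mul]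
  exact mul_le_one₀ (aJ_abs _ _ _) (abs_nonneg _) (aJ_abs _ _ _)

theorem eta_D (m : ℝ) (i : Fin 6) : D (ei i) (eta m) = fun y =>
    D (ei i) (aJ JA (m ^ 2)) y * aJ JB (m ^ 2) y +
      aJ JA (m ^ 2) y * D (ei i) (aJ JB (m ^ 2)) y :=
  D_mul (ei i) ((aJ_contDiff JA _ (n := 1)).differentiable (by norm_num))
    ((aJ_contDiff JB _ (n := 1)).differentiable (by norm_num))

theorem eta_DD (m : ℝ) (i : Fin 6) : D (ei i) (D (ei i) (eta m)) = fun y =>
    D (ei i) (D (ei i) (aJ JA (m ^ 2))) y * aJ JB (m ^ 2) y +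
      2 * (D (ei i) (aJ JA (m ^ 2)) y * D (ei i) (aJ JB (m ^ 2)) y) +
      aJ JA (m ^ 2) y * D (ei i) (D (ei i) (aJ JB (m ^ 2))) y :=
  DD_mul (ei i) (aJ_contDiff JA _ (n := 2)) (aJ_contDiff JB _ (n := 2))

theorem eta_D_zero {m : ℝ} {x : E6} (hA : 2 < m ^ 2 * sJ JA x) (hB : 2 < m ^ 2 * sJ JB x)
    (i : Fin 6) : D (ei i) (eta m) x = 0 ∧ D (ei i) (D (ei i) (eta m)) x = 0 := by
  obtain ⟨a1, a2⟩ := aJ_D_zero hA i
  obtain ⟨b1, b2⟩ := aJ_D_zero hB i
  rw [eta_DD, eta_D]
  simp [a1, a2, b1, b2]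

theorem eta_D_bound {C : ℝ} (hC1 : 1 ≤ C)
    (hC : ∀ t, |deriv chi t| ≤ C ∧ |deriv (deriv chi) t| ≤ C)
    {m : ℝ} (hm : 1 ≤ m) (i : Fin 6) (x : E6) :
    |D (ei i) (eta m) x| ≤ 8 * C ^ 2 * m ^ 2 ∧
      |D (ei i) (D (ei i) (eta m)) x| ≤ 68 * C ^ 2 * m ^ 2 := by
  obtain ⟨a1, a2⟩ := aJ_D_bound hC JA hm i x
  obtain ⟨b1, b2⟩ := aJ_D_bound hC JB hm i x
  have a0 := aJ_abs JA (m ^ 2) x
  have b0 := aJ_abs JB (m ^ 2) x
  have hC0 : 0 ≤ C := by linarith
  have hCC : C ≤ C ^ 2 := by nlinarith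
  have hmm : m ≤ m ^ 2 := by nlinarith
  have hCm : C * m ≤ C ^ 2 * m ^ 2 := mul_le_mul hCC hmm (by linarith) (by positivity)
  have hCm2 : C * m ^ 2 ≤ C ^ 2 * m ^ 2 := mul_le_mul_of_nonneg_right hCC (by positivity)
  rw [eta_DD, eta_D]
  have key : ∀ a b A B : ℝ, |a| ≤ A → |b| ≤ B → 0 ≤ A → |a * b| ≤ A * B := by
    intro a b A B ha hb hA
    rw [abs_mul]
    exact mul_le_mul ha hb (abs_nonneg _) hA
  constructor
  · refine (abs_add_le _ _).trans ?_
    have h1 := key _ _ _ _ a1 b0 (by positivity)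
    have h2 := key _ _ _ _ a0 b1 (by positivity)
    nlinarith
  · refine (abs_add_le _ _).trans ?_
    have h1 := key _ _ _ _ a2 b0 (by positivity)
    have h2 := key _ _ _ _ a0 b2 (by positivity)
    have h3 := key _ _ _ _ a1 b1 (by positivity)
    have h4 := abs_add_le (D (ei i) (D (ei i) (aJ JA (m ^ 2))) x * aJ JB (m ^ 2) x)
      (2 * (D (ei i) (aJ JA (m ^ 2)) x * D (ei i) (aJ JB (m ^ 2)) x))
    have h5 : |2 * (D (ei i) (aJ JA (m ^ 2)) x * D (ei i) (aJ JB (m ^ 2)) x)| ≤
        2 * (4 * C * m * (4 * C * m)) := by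
      rw [abs_mul, abs_two]
      linarith
    nlinarith

end eta

section main

theorem lap_D {f : E6 → ℝ} (hf : ContDiff ℝ 2 f) (x : E6) :
    (Δ f) x = ∑ i, D (ei i) (D (ei i) f) x :=
  lap_eq (EuclideanSpace.basisFun (Fin 6) ℝ) hf.contDiffAt

theorem err_eq {f g : E6 → ℝ} (hf : ContDiff ℝ 2 f) (hg : ContDiff ℝ 2 g) (x : E6) :
    (Δ (fun z => f z * g z)) x - f x * (Δ g) x =
      ∑ i, (D (ei i) (D (ei i) f) x * g x + 2 * (D (ei i) f x * D (ei i) g x)) := by
  rw [lap_D (hf.mul hg), lap_D hg, Finset.mul_sum, ← Finset.sum_sub_distrib]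
  refine Finset.sum_congr rfl (fun i _ => ?_)
  rw [DD_mul (ei i) hf hg]
  ring

theorem ra_eq (x : E6) : ra x = Real.sqrt (sJ JA x) := by
  unfold ra sJ JA
  simp [Finset.sum_insert, add_assoc]

theorem rb_eq (x : E6) : rb x = Real.sqrt (sJ JB x) := by
  unfold rb sJ JB
  simp [Finset.sum_insert, add_assoc]

theorem sJ_nonneg (J : Finset (Fin 6)) (x : E6) : 0 ≤ sJ J x :=
  Finset.sum_nonneg (fun _ _ => sq_nonneg _)

theorem ae_pos (i : Fin 6) (J : Finset (Fin 6)) (hi : i ∈ J) : ∀ᵐ x : E6, 0 < sJ J x := by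
  set S : Submodule ℝ E6 :=
    LinearMap.ker ((EuclideanSpace.proj (𝕜 := ℝ) i : E6 →L[ℝ] ℝ) : E6 →ₗ[ℝ] ℝ) with hS
  have hne : S ≠ ⊤ := by
    intro h
    have h1 : ei i ∈ S := h ▸ Submodule.mem_top
    rw [hS, LinearMap.mem_ker] at h1
    simp [ei, EuclideanSpace.basisFun_apply] at h1
  have h0 : volume (S : Set E6) = 0 := Measure.addHaar_submodule volume S hne
  have : {x : E6 | ¬ 0 < sJ J x} ⊆ (S : Set E6) := by
    intro x hx
    have hx1 : sJ J x = 0 := le_antisymm (not_lt.1 hx) (sJ_nonneg J x)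
    have h2 : (x i) ^ 2 ≤ 0 := by
      rw [← hx1]
      exact Finset.single_le_sum (f := fun j => (x j) ^ 2) (fun j _ => sq_nonneg _) hi
    have h3 : x i = 0 := by nlinarith
    change ((EuclideanSpace.proj (𝕜 := ℝ) i : E6 →L[ℝ] ℝ) : E6 →ₗ[ℝ] ℝ) x = 0
    simpa using h3
  exact measure_mono_null this h0

theorem eta_lim {x : E6} (hA : 0 < sJ JA x) (hB : 0 < sJ JB x) :
    ∀ᶠ n : ℕ in atTop, eta ((n : ℝ) + 1) x = 1 := by
  obtain ⟨N1, h1⟩ := exists_nat_ge (2 / sJ JA x)
  obtain ⟨N2, h2⟩ := exists_nat_ge (2 / sJ JB x)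
  filter_upwards [eventually_ge_atTop N1, eventually_ge_atTop N2] with n hn1 hn2
  have hn1' : (N1 : ℝ) ≤ n := by exact_mod_cast hn1
  have hn2' : (N2 : ℝ) ≤ n := by exact_mod_cast hn2
  have hn0 : (0 : ℝ) ≤ n := Nat.cast_nonneg n
  have hsq : (n : ℝ) ≤ ((n : ℝ) + 1) ^ 2 := by nlinarith
  rw [div_le_iff₀ hA] at h1
  rw [div_le_iff₀ hB] at h2
  have a1 : 2 ≤ ((n : ℝ) + 1) ^ 2 * sJ JA x :=
    h1.trans (mul_le_mul_of_nonneg_right (hn1'.trans hsq) hA.le)
  have a2 : 2 ≤ ((n : ℝ) + 1) ^ 2 * sJ JB x :=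
    h2.trans (mul_le_mul_of_nonneg_right (hn2'.trans hsq) hB.le)
  unfold eta aJ
  rw [chi_one a1, chi_one a2, one_mul]

end main

end CUT

open CUT in
theorem st_CUT : ST_CUT := by
  intro Ω u f M hΩ hu hf hsol φ hφ hφc hφΩ
  have hφ2 : ContDiff ℝ 2 φ := by exact_mod_cast contDiff_infty.1 hφ 2
  -- the open set
  set V : Set E6 := Ω ∩ ({x | 0 < sJ JA x} ∩ {x | 0 < sJ JB x}) with hV
  have hsA : Continuous (sJ JA) := (sJ_contDiff JA (n := 0)).continuous
  have hsB : Continuous (sJ JB) := (sJ_contDiff JB (n := 0)).continuous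
  have hVo : IsOpen V := hΩ.inter
    ((isOpen_lt continuous_const hsA).inter (isOpen_lt continuous_const hsB))
  have hsolV : ∀ x ∈ V, ContDiffAt ℝ 2 u x ∧ ContinuousAt f x ∧ (Δ u) x = - f x := by
    intro x hx
    refine hsol x hx.1 ?_ ?_
    · rw [ra_eq]
      exact Real.sqrt_pos.2 hx.2.1
    · rw [rb_eq]
      exact Real.sqrt_pos.2 hx.2.2
  have huV : ContinuousOn u V := fun x hx => (hsolV x hx).1.continuousAt.continuousWithinAt
  have hfV : ContinuousOn f V := fun x hx => (hsolV x hx).2.1.continuousWithinAt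
  -- bounds
  obtain ⟨C, hC1, hC⟩ := chi_bound
  obtain ⟨K0, hK0⟩ := hφ2.continuous.bounded_above_of_compact_support hφc
  have hDφc : ∀ i, HasCompactSupport (D (ei i) φ) := fun i =>
    hφc.of_isClosed_subset (isClosed_tsupport _) (tsupport_fderiv_apply_subset ℝ (ei i))
  have hDφb : ∀ i, ∃ K : ℝ, ∀ x, |D (ei i) φ x| ≤ K := fun i =>
    (D_contDiff (ei i) hφ2).continuous.bounded_above_of_compact_support (hDφc i)
  choose K1 hK1 using hDφb
  set K : ℝ := |K0| + ∑ i, |K1 i| with hK
  have hKφ : ∀ x, |φ x| ≤ K := fun x => (hK0 x).trans ((le_abs_self _).trans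
    (le_add_of_nonneg_right (Finset.sum_nonneg (fun _ _ => abs_nonneg _))))
  have hKD : ∀ i x, |D (ei i) φ x| ≤ K := by
    intro i x
    have h1 := (hK1 i x).trans (le_abs_self _)
    have h2 : |K1 i| ≤ ∑ i, |K1 i| :=
      Finset.single_le_sum (f := fun i => |K1 i|) (fun _ _ => abs_nonneg _) (Finset.mem_univ i)
    have h3 := abs_nonneg K0
    linarith
  have hKnn : 0 ≤ K := (abs_nonneg _).trans (hKφ 0)
  -- the support
  obtain ⟨R, hR0, hR⟩ : ∃ R : ℝ, 0 ≤ R ∧ ∀ x ∈ tsupport φ, ‖x‖ ≤ R := by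
    obtain ⟨R, hR⟩ := hφc.isCompact.isBounded.exists_norm_le
    exact ⟨|R|, abs_nonneg _, fun x hx => (hR x hx).trans (le_abs_self _)⟩
  -- the test functions
  set ψ : ℕ → E6 → ℝ := fun n x => eta ((n : ℝ) + 1) x * φ x with hψ
  have hψ2 : ∀ n, ContDiff ℝ 2 (ψ n) := fun n => (eta_contDiff _ (n := 2)).mul hφ2
  have hψsub : ∀ n, tsupport (ψ n) ⊆ tsupport φ := fun n => tsupport_mul_subset_right
  have hψc : ∀ n, HasCompactSupport (ψ n) := fun n =>
    hφc.of_isClosed_subset (isClosed_tsupport _) (hψsub n)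
  have hm : ∀ n : ℕ, (1 : ℝ) ≤ (n : ℝ) + 1 := fun n => by
    have : (0 : ℝ) ≤ n := Nat.cast_nonneg n
    linarith
  have hetaV : ∀ n : ℕ, tsupport (eta ((n : ℝ) + 1)) ⊆
      {x | 0 < sJ JA x} ∩ {x | 0 < sJ JB x} := by
    intro n
    set m : ℝ := (n : ℝ) + 1
    have h1 : tsupport (eta m) ⊆ {x | 1 ≤ m ^ 2 * sJ JA x} ∩ {x | 1 ≤ m ^ 2 * sJ JB x} := by
      refine closure_minimal ?_ ((isClosed_le continuous_const (continuous_const.mul hsA)).inter
        (isClosed_le continuous_const (continuous_const.mul hsB)))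
      intro x hx
      rw [Function.mem_support] at hx
      constructor
      · by_contra hc
        refine hx ?_
        unfold eta aJ
        rw [chi_zero (not_le.1 hc).le, zero_mul]
      · by_contra hc
        refine hx ?_
        unfold eta aJ
        rw [chi_zero (t := m ^ 2 * sJ JB x) (not_le.1 hc).le, mul_zero]
    refine h1.trans ?_
    rintro x ⟨hx1, hx2⟩
    have hx1' : 1 ≤ m ^ 2 * sJ JA x := hx1
    have hx2' : 1 ≤ m ^ 2 * sJ JB x := hx2
    constructor
    · by_contra hc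
      have : sJ JA x = 0 := le_antisymm (not_lt.1 hc) (sJ_nonneg _ _)
      rw [this] at hx1'
      linarith
    · by_contra hc
      have : sJ JB x = 0 := le_antisymm (not_lt.1 hc) (sJ_nonneg _ _)
      rw [this] at hx2'
      linarith
  have hψV : ∀ n, tsupport (ψ n) ⊆ V := fun n x hx =>
    ⟨hφΩ (hψsub n hx), hetaV n (tsupport_mul_subset_left hx)⟩
  -- Green
  have hgreen : ∀ n, ∫ x, u x * (Δ (ψ n)) x = - ∫ x, f x * ψ n x := by
    intro n
    rw [green hVo (fun x hx => (hsolV x hx).1) (hψ2 n) (hψc n) (hψV n), ← integral_neg]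
    refine integral_congr_ae (Eventually.of_forall (fun x => ?_))
    dsimp only
    by_cases hx : x ∈ V
    · rw [(hsolV x hx).2.2]
      ring
    · have h0 : ψ n x = 0 := image_eq_zero_of_notMem_tsupport (fun h => hx (hψV n h))
      rw [h0]
      ring
  -- Laplacian facts
  have hlapsupp : ∀ g : E6 → ℝ, ContDiff ℝ 2 g → tsupport (Δ g) ⊆ tsupport g ∧
      Continuous (Δ g) := by
    intro g hg
    have h1 : (Δ g) = fun x => ∑ i, D (ei i) (D (ei i) g) x := funext (lap_D hg)
    constructor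
    · refine closure_minimal ?_ (isClosed_tsupport _)
      intro x hx
      by_contra hc
      refine hx ?_
      rw [h1]
      refine Finset.sum_eq_zero (fun i _ => ?_)
      refine image_eq_zero_of_notMem_tsupport (fun h => hc ?_)
      exact tsupport_fderiv_apply_subset ℝ (ei i) (tsupport_fderiv_apply_subset ℝ (ei i) h)
    · rw [h1]
      exact continuous_finsetSum _ (fun i _ => DD_cont (ei i) hg)
  have hlφ := hlapsupp φ hφ2
  have hlφc : HasCompactSupport (Δ φ) := hφc.of_isClosed_subset (isClosed_tsupport _) hlφ.1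
  -- the pieces
  have hae : ∀ᵐ x : E6, 0 < sJ JA x ∧ 0 < sJ JB x :=
    (ae_pos 0 JA (by simp [JA])).and (ae_pos 3 JB (by simp [JB]))
  -- integrability
  have int1 : ∀ n, Integrable (fun x => u x * (Δ (ψ n)) x) := by
    intro n
    obtain ⟨h1, h2⟩ := hlapsupp (ψ n) (hψ2 n)
    exact int_mul hVo huV h2 ((hψc n).of_isClosed_subset (isClosed_tsupport _) h1)
      (h1.trans (hψV n))
  have int2c : ∀ n : ℕ, Continuous (fun x => eta ((n : ℝ) + 1) x * (Δ φ) x) := fun n =>
    (eta_contDiff _ (n := 0)).continuous.mul hlφ.2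
  have int2s : ∀ n : ℕ, tsupport (fun x => eta ((n : ℝ) + 1) x * (Δ φ) x) ⊆ V := fun n x hx =>
    ⟨hφΩ (hlφ.1 (tsupport_mul_subset_right hx)), hetaV n (tsupport_mul_subset_left hx)⟩
  have int2k : ∀ n : ℕ, HasCompactSupport (fun x => eta ((n : ℝ) + 1) x * (Δ φ) x) := fun n =>
    hlφc.of_isClosed_subset (isClosed_tsupport _) tsupport_mul_subset_right
  have int2 : ∀ n : ℕ, Integrable (fun x => u x * (eta ((n : ℝ) + 1) x * (Δ φ) x)) := fun n =>
    int_mul hVo huV (int2c n) (int2k n) (int2s n)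
  -- limit of the main term
  have lim1 : Tendsto (fun n : ℕ => ∫ x, u x * (eta ((n : ℝ) + 1) x * (Δ φ) x)) atTop
      (𝓝 (∫ x, u x * (Δ φ) x)) := by
    refine tendsto_integral_of_dominated_convergence (fun x => M * |(Δ φ) x|)
      (fun n => (int2 n).aestronglyMeasurable)
      ((hlφ.2.integrable_of_hasCompactSupport hlφc).abs.const_mul M) ?_ ?_
    · intro n
      refine Eventually.of_forall (fun x => ?_)
      rw [Real.norm_eq_abs, abs_mul, abs_mul]
      by_cases hx : x ∈ Ω
      · have h1 := eta_abs ((n : ℝ) + 1) x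
        have h2 : |eta ((n : ℝ) + 1) x| * |(Δ φ) x| ≤ |(Δ φ) x| :=
          mul_le_of_le_one_left (abs_nonneg _) h1
        exact mul_le_mul (hu x hx) h2 (by positivity) ((abs_nonneg _).trans (hu x hx))
      · have h0 : (Δ φ) x = 0 :=
          image_eq_zero_of_notMem_tsupport (fun h => hx (hφΩ (hlφ.1 h)))
        rw [h0]
        simp
    · filter_upwards [hae] with x hx
      refine tendsto_const_nhds.congr' ?_
      filter_upwards [eta_lim hx.1 hx.2] with n hn
      rw [hn, one_mul]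
  have int3 : ∀ n : ℕ, Integrable (fun x => f x * ψ n x) := fun n =>
    int_mul hVo hfV (hψ2 n).continuous (hψc n) (hψV n)
  have lim2 : Tendsto (fun n : ℕ => ∫ x, f x * ψ n x) atTop (𝓝 (∫ x, f x * φ x)) := by
    refine tendsto_integral_of_dominated_convergence (fun x => M * |φ x|)
      (fun n => (int3 n).aestronglyMeasurable)
      ((hφ2.continuous.integrable_of_hasCompactSupport hφc).abs.const_mul M) ?_ ?_
    · intro n
      refine Eventually.of_forall (fun x => ?_)
      rw [Real.norm_eq_abs, abs_mul]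
      by_cases hx : x ∈ Ω
      · have h1 := eta_abs ((n : ℝ) + 1) x
        have h2 : |ψ n x| ≤ |φ x| := by
          rw [hψ]
          dsimp only
          rw [abs_mul]
          exact mul_le_of_le_one_left (abs_nonneg _) h1
        exact mul_le_mul (hf x hx) h2 (by positivity) ((abs_nonneg _).trans (hf x hx))
      · have h0 : φ x = 0 := image_eq_zero_of_notMem_tsupport (fun h => hx (hφΩ h))
        rw [hψ]
        dsimp only
        rw [h0]
        simp
    · filter_upwards [hae] with x hx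
      refine tendsto_const_nhds.congr' ?_
      filter_upwards [eta_lim hx.1 hx.2] with n hn
      rw [hψ]
      dsimp only
      rw [hn, one_mul]
  -- the error
  have hErr : ∀ n : ℕ, |∫ x, (u x * (Δ (ψ n)) x - u x * (eta ((n : ℝ) + 1) x * (Δ φ) x))| ≤
      (|M| * (504 * C ^ 2 * K) * (1024 * R ^ 3)) * (1 / ((n : ℝ) + 1)) := by
    intro n
    set m : ℝ := (n : ℝ) + 1 with hmdef
    have hm1 : 1 ≤ m := hm n
    have hm0 : 0 < m := by linarith
    set T : Set E6 := box JA m R ∪ box JB m R with hT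
    obtain ⟨vA1, vA2⟩ := boxA_vol hm0 hR0
    obtain ⟨vB1, vB2⟩ := boxB_vol hm0 hR0
    have hTlt : volume T < ⊤ := (measure_union_le _ _).trans_lt (ENNReal.add_lt_top.2 ⟨vA1, vB1⟩)
    have hTvol : volume.real T ≤ 2 * ((4 / m) ^ 3 * (2 * R) ^ 3) := by
      have h1 : volume.real T ≤ volume.real (box JA m R) + volume.real (box JB m R) :=
        measureReal_union_le _ _
      have h2 : volume.real (box JA m R) = (4 / m) ^ 3 * (2 * R) ^ 3 := vA2
      have h3 : volume.real (box JB m R) = (4 / m) ^ 3 * (2 * R) ^ 3 := vB2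
      linarith
    set G : E6 → ℝ := fun x => u x * (Δ (ψ n)) x - u x * (eta m x * (Δ φ) x) with hG
    have hGeq : ∀ x, G x = u x * ∑ i, (D (ei i) (D (ei i) (eta m)) x * φ x +
        2 * (D (ei i) (eta m) x * D (ei i) φ x)) := by
      intro x
      rw [← err_eq (eta_contDiff m (n := 2)) hφ2 x, hG]
      dsimp only
      ring
    have hG0 : ∀ x, x ∉ T → G x = 0 := by
      intro x hx
      rw [hGeq]
      by_cases hφx : x ∈ tsupport φ
      · have hA : 2 < m ^ 2 * sJ JA x := by
          by_contra hc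
          exact hx (Or.inl (mem_box hm0 (not_lt.1 hc) (hR x hφx)))
        have hB : 2 < m ^ 2 * sJ JB x := by
          by_contra hc
          exact hx (Or.inr (mem_box hm0 (not_lt.1 hc) (hR x hφx)))
        have : ∑ i, (D (ei i) (D (ei i) (eta m)) x * φ x +
            2 * (D (ei i) (eta m) x * D (ei i) φ x)) = 0 := by
          refine Finset.sum_eq_zero (fun i _ => ?_)
          obtain ⟨h1, h2⟩ := eta_D_zero hA hB i
          rw [h1, h2]
          ring
        rw [this, mul_zero]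
      · have : ∑ i, (D (ei i) (D (ei i) (eta m)) x * φ x +
            2 * (D (ei i) (eta m) x * D (ei i) φ x)) = 0 := by
          refine Finset.sum_eq_zero (fun i _ => ?_)
          have h1 : φ x = 0 := image_eq_zero_of_notMem_tsupport hφx
          have h2 : D (ei i) φ x = 0 := image_eq_zero_of_notMem_tsupport
            (fun h => hφx (tsupport_fderiv_apply_subset ℝ (ei i) h))
          rw [h1, h2]
          ring
        rw [this, mul_zero]
    have hGb : ∀ x, ‖G x‖ ≤ |M| * (504 * C ^ 2 * K * m ^ 2) := by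
      intro x
      rw [Real.norm_eq_abs]
      by_cases hx : x ∈ Ω
      · rw [hGeq, abs_mul]
        have h1 : |u x| ≤ |M| := (hu x hx).trans (le_abs_self _)
        refine mul_le_mul h1 ?_ (abs_nonneg _) (abs_nonneg _)
        refine (Finset.abs_sum_le_sum_abs _ _).trans ?_
        have h2 : ∀ i ∈ (Finset.univ : Finset (Fin 6)), |D (ei i) (D (ei i) (eta m)) x * φ x +
            2 * (D (ei i) (eta m) x * D (ei i) φ x)| ≤ 84 * C ^ 2 * K * m ^ 2 := by
          intro i _
          obtain ⟨b1, b2⟩ := eta_D_bound hC1 hC hm1 i x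
          refine (abs_add_le _ _).trans ?_
          rw [abs_mul, abs_mul, abs_mul, abs_two]
          have c1 : |D (ei i) (D (ei i) (eta m)) x| * |φ x| ≤ 68 * C ^ 2 * m ^ 2 * K :=
            mul_le_mul b2 (hKφ x) (abs_nonneg _) (by positivity)
          have c2 : |D (ei i) (eta m) x| * |D (ei i) φ x| ≤ 8 * C ^ 2 * m ^ 2 * K :=
            mul_le_mul b1 (hKD i x) (abs_nonneg _) (by positivity)
          nlinarith
        have h3 := Finset.sum_le_card_nsmul _ _ _ h2
        refine h3.trans ?_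
        simp only [Finset.card_univ, Fintype.card_fin, nsmul_eq_mul]
        push_cast
        linarith
      · have : G x = 0 := by
          rw [hG]
          dsimp only
          have h1 : (Δ (ψ n)) x = 0 := image_eq_zero_of_notMem_tsupport
            (fun h => hx (hψV n ((hlapsupp (ψ n) (hψ2 n)).1 h)).1)
          have h2 : (Δ φ) x = 0 :=
            image_eq_zero_of_notMem_tsupport (fun h => hx (hφΩ (hlφ.1 h)))
          rw [h1, h2]
          ring
        rw [this, abs_zero]
        positivity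
    have hI : ∫ x, G x = ∫ x in T, G x :=
      (setIntegral_eq_integral_of_forall_compl_eq_zero hG0).symm
    change |∫ x, G x| ≤ _
    rw [hI, ← Real.norm_eq_abs]
    refine (norm_setIntegral_le_of_norm_le_const hTlt (fun x _ => hGb x)).trans ?_
    have hpos : 0 ≤ |M| * (504 * C ^ 2 * K * m ^ 2) := by positivity
    refine (mul_le_mul_of_nonneg_left hTvol hpos).trans (le_of_eq ?_)
    field_simp
    ring
  have lim3 : Tendsto (fun n : ℕ => ∫ x, (u x * (Δ (ψ n)) x -
      u x * (eta ((n : ℝ) + 1) x * (Δ φ) x))) atTop (𝓝 0) := by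
    refine squeeze_zero_norm
      (a := fun n : ℕ => (|M| * (504 * C ^ 2 * K) * (1024 * R ^ 3)) * (1 / ((n : ℝ) + 1)))
      (fun n => ?_) ?_
    · rw [Real.norm_eq_abs]
      exact hErr n
    · have := (tendsto_one_div_add_atTop_nhds_zero_nat (𝕜 := ℝ)).const_mul
        (|M| * (504 * C ^ 2 * K) * (1024 * R ^ 3))
      simpa using this
  have e3 : ∀ n : ℕ, ∫ x, (u x * (Δ (ψ n)) x - u x * (eta ((n : ℝ) + 1) x * (Δ φ) x)) =
      - (∫ x, f x * ψ n x) - ∫ x, u x * (eta ((n : ℝ) + 1) x * (Δ φ) x) := by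
    intro n
    rw [integral_sub (int1 n) (int2 n), hgreen n]
  simp_rw [e3] at lim3
  have lim4 := (lim2.neg.sub lim1)
  have := tendsto_nhds_unique lim3 lim4
  linarith

end LEP
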