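import Pool.Agent.Helper14.LE.Stmts
import Pool.Agent.Helper6.LE.RMT

/-!
# GF1: Green functions of bounded star-shaped domains
-/

open MeasureTheory Set Filter Topology InnerProductSpace Metric

noncomputable section

namespace LEP

namespace GF1

theorem dslope_cont {U : Set ℂ} (hU : IsOpen U) {φ : ℂ → ℂ} (hφ : DifferentiableOn ℂ φ U) :
    ContinuousOn (fun q : ℂ × ℂ => dslope φ q.2 q.1) (U ×ˢ U) := by
  rintro ⟨a, b⟩ ⟨ha, hb⟩
  apply ContinuousAt.continuousWithinAt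
  have ha' : a ∈ U := ha
  have hb' : b ∈ U := hb
  have hcont : ∀ z ∈ U, ContinuousAt φ z := fun z hz =>
    (hφ.differentiableAt (hU.mem_nhds hz)).continuousAt
  by_cases h : a = b
  · subst h
    have han := hφ.analyticOnNhd hU a ha'
    have hs : HasStrictDerivAt φ (deriv φ a) a := han.hasStrictDerivAt
    have hd : ContinuousAt (deriv φ) a := han.deriv.continuousAt
    have ho := hs.hasStrictFDerivAt.isLittleO
    rw [Metric.continuousAt_iff']
    intro ε hε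
    have h1 : ∀ᶠ p : ℂ × ℂ in 𝓝 (a, a), ‖φ p.1 - φ p.2 - (p.1 - p.2) * deriv φ a‖ ≤
        (ε / 2) * ‖p.1 - p.2‖ := by
      have := ho.def (half_pos hε)
      filter_upwards [this] with p hp
      simpa using hp
    have h2 : ∀ᶠ p : ℂ × ℂ in 𝓝 (a, a), dist (deriv φ p.2) (deriv φ a) < ε :=
      (Metric.tendsto_nhds.1 (hd.tendsto.comp (continuous_snd.tendsto (a, a)))) ε hε
    filter_upwards [h1, h2] with p hp1 hp2
    rw [dslope_same]
    by_cases hp : p.1 = p.2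
    · rw [hp, dslope_same]
      exact hp2
    · have hne : p.1 - p.2 ≠ 0 := sub_ne_zero.2 hp
      rw [dslope_of_ne _ hp, slope_def_field, dist_eq_norm]
      have e : (φ p.1 - φ p.2) / (p.1 - p.2) - deriv φ a =
          (φ p.1 - φ p.2 - (p.1 - p.2) * deriv φ a) / (p.1 - p.2) := by
        field_simp
      rw [e, norm_div, div_lt_iff₀ (norm_pos_iff.2 hne)]
      refine hp1.trans_lt ?_
      have := norm_pos_iff.2 hne
      nlinarith
  · have hne : a - b ≠ 0 := sub_ne_zero.2 h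
    have h1 : ContinuousAt (fun q : ℂ × ℂ => (φ q.1 - φ q.2) / (q.1 - q.2)) (a, b) := by
      refine ContinuousAt.div (ContinuousAt.sub ?_ ?_) (by fun_prop) hne
      · exact ContinuousAt.comp (f := Prod.fst) (x := ((a, b) : ℂ × ℂ)) (hcont a ha')
          continuous_fst.continuousAt
      · exact ContinuousAt.comp (f := Prod.snd) (x := ((a, b) : ℂ × ℂ)) (hcont b hb')
          continuous_snd.continuousAt
    refine h1.congr ?_
    have h2 : ∀ᶠ q : ℂ × ℂ in 𝓝 (a, b), q.1 ≠ q.2 :=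
      (isOpen_ne_fun continuous_fst continuous_snd).mem_nhds h
    filter_upwards [h2] with q hq
    rw [dslope_of_ne _ hq, slope_def_field]

theorem key_id (a b : ℂ) : ‖1 - (starRingEnd ℂ) b * a‖ ^ 2 =
    ‖a - b‖ ^ 2 + (1 - ‖a‖ ^ 2) * (1 - ‖b‖ ^ 2) := by
  rw [Complex.sq_norm, Complex.sq_norm, Complex.sq_norm, Complex.sq_norm, Complex.normSq_apply,
    Complex.normSq_apply, Complex.normSq_apply, Complex.normSq_apply]
  simp
  ring

theorem symm_id (a b : ℂ) : ‖1 - (starRingEnd ℂ) b * a‖ = ‖1 - (starRingEnd ℂ) a * b‖ := by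
  rw [← Complex.norm_conj (1 - (starRingEnd ℂ) b * a)]
  simp [mul_comm]

variable {a b : ℂ}

theorem norm_le (ha : ‖a‖ < 1) (hb : ‖b‖ < 1) : ‖a - b‖ ≤ ‖1 - (starRingEnd ℂ) b * a‖ := by
  have h := key_id a b
  have h1 : 0 ≤ (1 - ‖a‖ ^ 2) * (1 - ‖b‖ ^ 2) := by
    have := norm_nonneg a
    have := norm_nonneg b
    apply mul_nonneg <;> nlinarith
  exact le_of_sq_le_sq (by linarith) (norm_nonneg _)

theorem log_bound {r ρ : ℝ} (ha : ‖a‖ < 1) (hb : ‖b‖ ≤ r) (hr : r < ρ) (hρ : ρ < ‖a‖) :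
    Real.log ‖1 - (starRingEnd ℂ) b * a‖ - Real.log ‖a - b‖ ≤
      (1 / 2) * ((1 - ρ ^ 2) / (ρ - r) ^ 2) := by
  have hr0 : 0 ≤ r := (norm_nonneg b).trans hb
  have hab : ρ - r < ‖a - b‖ := by
    have := norm_sub_norm_le a b
    linarith
  have hpos : 0 < ‖a - b‖ := by linarith
  have hb1 : ‖b‖ < 1 := by linarith
  have hle := norm_le ha hb1
  have hpos2 : 0 < ‖1 - (starRingEnd ℂ) b * a‖ := hpos.trans_le hle
  have e1 : Real.log ‖1 - (starRingEnd ℂ) b * a‖ - Real.log ‖a - b‖ =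
      (1 / 2) * Real.log (‖1 - (starRingEnd ℂ) b * a‖ ^ 2 / ‖a - b‖ ^ 2) := by
    rw [Real.log_div (by positivity) (by positivity), Real.log_pow, Real.log_pow]
    push_cast
    ring
  rw [e1]
  refine mul_le_mul_of_nonneg_left ?_ (by norm_num)
  refine (Real.log_le_sub_one_of_pos (by positivity)).trans ?_
  rw [key_id]
  have e2 : (‖a - b‖ ^ 2 + (1 - ‖a‖ ^ 2) * (1 - ‖b‖ ^ 2)) / ‖a - b‖ ^ 2 - 1 =
      (1 - ‖a‖ ^ 2) * (1 - ‖b‖ ^ 2) / ‖a - b‖ ^ 2 := by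
    field_simp
    ring
  rw [e2]
  have h3 : 0 ≤ 1 - ‖b‖ ^ 2 := by nlinarith [norm_nonneg b]
  have h4 : 1 - ‖b‖ ^ 2 ≤ 1 := by nlinarith [norm_nonneg b]
  have h5 : 0 ≤ 1 - ‖a‖ ^ 2 := by nlinarith [norm_nonneg a]
  have h6 : 1 - ‖a‖ ^ 2 ≤ 1 - ρ ^ 2 := by nlinarith [norm_nonneg a]
  have h7 : (ρ - r) ^ 2 ≤ ‖a - b‖ ^ 2 := by
    have : 0 < ρ - r := by linarith
    nlinarith
  have h8 : (0 : ℝ) < (ρ - r) ^ 2 := by
    have : 0 < ρ - r := by linarith
    positivity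
  calc (1 - ‖a‖ ^ 2) * (1 - ‖b‖ ^ 2) / ‖a - b‖ ^ 2 ≤ (1 - ρ ^ 2) * 1 / (ρ - r) ^ 2 := by
        apply div_le_div₀ (by nlinarith) (mul_le_mul h6 h4 h3 (by linarith)) h8 h7
    _ = (1 - ρ ^ 2) / (ρ - r) ^ 2 := by rw [mul_one]

open Classical in
/-- the Green function -/
def gg (U : Set ℂ) (φ : ℂ → ℂ) (x y : ℂ) : ℝ :=
  if x ∈ U ∧ y ∈ U ∧ x ≠ y then (1 / (2 * Real.pi)) *
    (Real.log ‖1 - (starRingEnd ℂ) (φ y) * φ x‖ - Real.log ‖φ x - φ y‖) else 0

/-- its regular part -/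
def hh (φ : ℂ → ℂ) (x y : ℂ) : ℝ := (1 / (2 * Real.pi)) *
  (Real.log ‖1 - (starRingEnd ℂ) (φ y) * φ x‖ - Real.log ‖dslope φ y x‖)

theorem isGreen {U : Set ℂ} (hU : IsOpen U) {φ ψ : ℂ → ℂ} (hφ : DifferentiableOn ℂ φ U)
    (hψ : DifferentiableOn ℂ ψ (ball 0 1)) (hb : BijOn φ U (ball 0 1))
    (hb' : BijOn ψ (ball 0 1) U) (hinv : InvOn ψ φ U (ball 0 1))
    (hd : ∀ z ∈ U, deriv φ z ≠ 0) : IsGreen U (gg U φ) := by
  have hlt : ∀ z ∈ U, ‖φ z‖ < 1 := fun z hz => by simpa using hb.mapsTo hz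
  have hne : ∀ x ∈ U, ∀ y ∈ U, x ≠ y → φ x - φ y ≠ 0 := fun x hx y hy hxy h =>
    hxy (hb.injOn hx hy (sub_eq_zero.1 h))
  have h1ne : ∀ x ∈ U, ∀ y ∈ U, (1 - (starRingEnd ℂ) (φ y) * φ x) ≠ 0 := fun x hx y hy =>
    Pool.Agent.Helper6.LE.mob_den (hlt y hy) (hlt x hx)
  have hdne : ∀ x ∈ U, ∀ y ∈ U, dslope φ y x ≠ 0 := by
    intro x hx y hy
    by_cases hxy : x = y
    · rw [hxy, dslope_same]
      exact hd y hy
    · intro h
      have := sub_smul_dslope φ y x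
      rw [h, smul_zero] at this
      exact hne x hx y hy hxy this.symm
  have hπ : 0 < 1 / (2 * Real.pi) := by positivity
  refine ⟨?_, ?_, ⟨hh φ, ?_, ?_, ?_⟩, ?_, ?_, ?_⟩
  · intro x hx y hy
    unfold gg
    by_cases hxy : x = y
    · rw [hxy]
    · rw [if_pos ⟨hx, hy, hxy⟩, if_pos ⟨hy, hx, Ne.symm hxy⟩, symm_id, norm_sub_rev (φ x) (φ y)]
  · intro x y
    unfold gg
    split_ifs with h
    · obtain ⟨hx, hy, hxy⟩ := h
      refine mul_nonneg hπ.le (sub_nonneg.2 (Real.log_le_log ?_ (norm_le (hlt x hx) (hlt y hy))))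
      exact norm_pos_iff.2 (hne x hx y hy hxy)
    · exact le_rfl
  · unfold hh
    have hφc : ContinuousOn φ U := hφ.continuousOn
    have c1 : ContinuousOn (fun q : ℂ × ℂ => φ q.1) (U ×ˢ U) :=
      hφc.comp continuous_fst.continuousOn (fun q hq => hq.1)
    have c2 : ContinuousOn (fun q : ℂ × ℂ => φ q.2) (U ×ˢ U) :=
      hφc.comp continuous_snd.continuousOn (fun q hq => hq.2)
    refine ContinuousOn.mul continuousOn_const (ContinuousOn.sub ?_ ?_)
    · refine ContinuousOn.log (ContinuousOn.norm (continuousOn_const.sub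
        ((Complex.continuous_conj.comp_continuousOn c2).mul c1))) ?_
      intro q hq
      exact norm_ne_zero_iff.2 (h1ne q.1 hq.1 q.2 hq.2)
    · refine ContinuousOn.log (ContinuousOn.norm (dslope_cont hU hφ)) ?_
      intro q hq
      exact norm_ne_zero_iff.2 (hdne q.1 hq.1 q.2 hq.2)
  · intro y hy x hx
    have ha1 : AnalyticAt ℂ (fun x => 1 - (starRingEnd ℂ) (φ y) * φ x) x :=
      analyticAt_const.sub (analyticAt_const.mul (hφ.analyticOnNhd hU x hx))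
    have ha2 : AnalyticAt ℂ (dslope φ y) x :=
      ((Complex.differentiableOn_dslope (hU.mem_nhds hy)).2 hφ).analyticOnNhd hU x hx
    have H1 := ha1.harmonicAt_log_norm (h1ne x hx y hy)
    have H2 := ha2.harmonicAt_log_norm (hdne x hx y hy)
    have H3 := (H1.sub H2).const_smul (c := 1 / (2 * Real.pi))
    exact H3
  · intro x hx y hy hxy
    unfold gg hh
    rw [if_pos ⟨hx, hy, hxy⟩]
    have e : φ x - φ y = (x - y) * dslope φ y x := by
      have := sub_smul_dslope φ y x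
      rw [smul_eq_mul] at this
      exact this.symm
    rw [e, norm_mul, Real.log_mul (norm_ne_zero_iff.2 (sub_ne_zero.2 hxy))
      (norm_ne_zero_iff.2 (hdne x hx y hy))]
    ring
  · intro K hK hKc ε hε
    obtain ⟨r, hr0, hr1, hr⟩ : ∃ r : ℝ, 0 ≤ r ∧ r < 1 ∧ ∀ y ∈ K, ‖φ y‖ ≤ r := by
      rcases K.eq_empty_or_nonempty with rfl | hKn
      · exact ⟨0, le_rfl, one_pos, by simp⟩
      · obtain ⟨y0, hy0, hmax⟩ := hKc.exists_isMaxOn hKn
          ((hφ.continuousOn.mono hK).norm)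
        exact ⟨‖φ y0‖, norm_nonneg _, hlt y0 (hK hy0), fun y hy => hmax hy⟩
    obtain ⟨ρ, hρr, hρ1, hρ⟩ : ∃ ρ : ℝ, r < ρ ∧ ρ < 1 ∧
        (1 / (2 * Real.pi)) * ((1 / 2) * ((1 - ρ ^ 2) / (ρ - r) ^ 2)) < ε := by
      have hcont : ContinuousAt (fun ρ : ℝ => (1 / (2 * Real.pi)) *
          ((1 / 2) * ((1 - ρ ^ 2) / (ρ - r) ^ 2))) 1 := by
        have : (1 - r) ^ 2 ≠ 0 := by
          have : 0 < 1 - r := by linarith
          positivity
        fun_prop (disch := assumption)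
      have h0 : (fun ρ : ℝ => (1 / (2 * Real.pi)) * ((1 / 2) * ((1 - ρ ^ 2) / (ρ - r) ^ 2))) 1 < ε := by
        simpa using hε
      have h1 : ∀ᶠ ρ in 𝓝[<] (1 : ℝ), (1 / (2 * Real.pi)) *
          ((1 / 2) * ((1 - ρ ^ 2) / (ρ - r) ^ 2)) < ε :=
        (hcont.eventually_lt_const h0).filter_mono nhdsWithin_le_nhds
      have h2 : ∀ᶠ ρ in 𝓝[<] (1 : ℝ), r < ρ :=
        (eventually_gt_nhds hr1).filter_mono nhdsWithin_le_nhds
      have h3 : ∀ᶠ ρ in 𝓝[<] (1 : ℝ), ρ < 1 := eventually_mem_nhdsWithin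
      obtain ⟨ρ, h⟩ := (h1.and (h2.and h3)).exists
      exact ⟨ρ, h.2.1, h.2.2, h.1⟩
    refine ⟨ψ '' closedBall 0 ρ, ?_, ?_, ?_⟩
    · rintro _ ⟨z, hz, rfl⟩
      exact hb'.mapsTo (closedBall_subset_ball hρ1 hz)
    · exact (isCompact_closedBall 0 ρ).image_of_continuousOn
        (hψ.continuousOn.mono (closedBall_subset_ball hρ1))
    · rintro y hy x ⟨hx, hxK⟩
      have hφx : ρ < ‖φ x‖ := by
        by_contra hcon
        push Not at hcon
        exact hxK ⟨φ x, by simpa using hcon, hinv.1 hx⟩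
      unfold gg
      split_ifs with h
      · refine lt_of_le_of_lt (mul_le_mul_of_nonneg_left (log_bound (hlt x hx) (hr y hy) hρr hφx)
          hπ.le) hρ
      · exact hε
  · intro x
    unfold gg
    rw [if_neg (fun h => h.2.2 rfl)]
  · intro x y h
    unfold gg
    rw [if_neg]
    rintro ⟨h1, h2, -⟩
    rcases h with h | h
    · exact h h1
    · exact h h2

end GF1

/-- **GF1** -/
theorem st_GF1 : ST_GF1 := by
  intro U hU hbd h0 hs
  obtain ⟨φ, ψ, h1, h2, h3, h4, h5, -, -, h6, -⟩ :=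
    Pool.Agent.Helper6.LE.rmt_inv hU (Pool.Agent.Helper6.LE.star_sc hs h0) hbd h0
  exact ⟨_, GF1.isGreen hU h1 h2 h3 h4 h5 h6⟩

end LEP
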