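import Pool.Agent.Helper77.LE.GF1

/-!
# GF2: Green functions of the quarter domains
-/

open MeasureTheory Set Filter Topology InnerProductSpace Metric

noncomputable section

namespace LEP

namespace GF2

theorem harm_conj {f : ℂ → ℝ} {z : ℂ} (h : HarmonicAt f (starRingEnd ℂ z)) :
    HarmonicAt (fun w => f (starRingEnd ℂ w)) z := by
  obtain ⟨r, hr, hball⟩ := Metric.eventually_nhds_iff_ball.1 h.eventually
  obtain ⟨F, hF, hre⟩ := InnerProductSpace.HarmonicOnNhd.exists_analyticOnNhd_ball_re_eq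
    (fun y hy => hball y hy)
  have hmem : ∀ w ∈ ball z r, starRingEnd ℂ w ∈ ball (starRingEnd ℂ z) r := by
    intro w hw
    rw [mem_ball, Complex.dist_conj_conj]
    exact hw
  have hd : DifferentiableOn ℂ (starRingEnd ℂ ∘ F ∘ starRingEnd ℂ) (ball z r) := by
    intro w hw
    exact (differentiableAt_conj_conj_iff.2
      (hF _ (hmem w hw)).differentiableAt).differentiableWithinAt
  have ha : AnalyticAt ℂ (starRingEnd ℂ ∘ F ∘ starRingEnd ℂ) z :=
    hd.analyticAt (ball_mem_nhds z hr)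
  refine (harmonicAt_congr_nhds ?_).1 ha.harmonicAt_re
  filter_upwards [ball_mem_nhds z hr] with w hw
  have := hre (hmem w hw)
  simp only [Function.comp_apply, Complex.conj_re]
  exact this

theorem harm_neg {f : ℂ → ℝ} {z : ℂ} (h : HarmonicAt f (-z)) :
    HarmonicAt (fun w => f (-w)) z := by
  obtain ⟨r, hr, hball⟩ := Metric.eventually_nhds_iff_ball.1 h.eventually
  obtain ⟨F, hF, hre⟩ := InnerProductSpace.HarmonicOnNhd.exists_analyticOnNhd_ball_re_eq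
    (fun y hy => hball y hy)
  have hmem : ∀ w ∈ ball z r, -w ∈ ball (-z) r := by
    intro w hw
    rw [mem_ball, dist_neg_neg]
    exact hw
  have ha : AnalyticAt ℂ (fun w => F (-w)) z :=
    AnalyticAt.comp (g := F) (f := fun w => -w) (hF _ (hmem z (mem_ball_self hr)))
      analyticAt_id.neg
  refine (harmonicAt_congr_nhds ?_).1 ha.harmonicAt_re
  filter_upwards [ball_mem_nhds z hr] with w hw
  exact hre (hmem w hw)

theorem comp_green {U : Set ℂ} {G : ℂ → ℂ → ℝ} (hG : IsGreen U G) (σ : ℂ → ℂ)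
    (hc : Continuous σ) (hσ : ∀ z, σ (σ z) = z) (hiso : ∀ x y, ‖σ x - σ y‖ = ‖x - y‖)
    (hU : ∀ z ∈ U, σ z ∈ U)
    (hh : ∀ (f : ℂ → ℝ) (z : ℂ), HarmonicAt f (σ z) → HarmonicAt (fun w => f (σ w)) z) :
    IsGreen U (fun x y => G (σ x) (σ y)) := by
  obtain ⟨h, h1, h2, h3⟩ := hG.reg
  refine ⟨fun x hx y hy => hG.symm _ (hU x hx) _ (hU y hy), fun x y => hG.nonneg _ _,
    ⟨fun x y => h (σ x) (σ y), ?_, ?_, ?_⟩, ?_, fun x => hG.diag _, ?_⟩
  · refine h1.comp (f := fun q : ℂ × ℂ => (σ q.1, σ q.2)) (by fun_prop) ?_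
    intro q hq
    exact ⟨hU _ hq.1, hU _ hq.2⟩
  · intro y hy x hx
    exact hh (fun x => h x (σ y)) x (h2 _ (hU y hy) _ (hU x hx))
  · intro x hx y hy hxy
    rw [h3 _ (hU x hx) _ (hU y hy) (fun he => hxy (by rw [← hσ x, he, hσ])), hiso]
  · intro K hK hKc ε hε
    obtain ⟨K', hK', hK'c, hK''⟩ := hG.bdry (σ '' K) (by
      rintro _ ⟨z, hz, rfl⟩
      exact hU z (hK hz)) (hKc.image hc) ε hε
    refine ⟨σ '' K', ?_, hK'c.image hc, ?_⟩
    · rintro _ ⟨z, hz, rfl⟩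
      exact hU z (hK' hz)
    · rintro y hy x ⟨hx, hxK⟩
      refine hK'' (σ y) ⟨y, hy, rfl⟩ (σ x) ⟨hU x hx, fun h => hxK ⟨σ x, h, hσ x⟩⟩
  · intro x y hxy
    apply hG.off
    rcases hxy with h | h
    · exact Or.inl (fun h' => h (by rw [← hσ x]; exact hU _ h'))
    · exact Or.inr (fun h' => h (by rw [← hσ y]; exact hU _ h'))

/-- symmetric situation -/
structure Sy (U : Set ℂ) (G : ℂ → ℂ → ℝ) : Prop where
  op : IsOpen U
  gr : IsGreen U G
  cU : ∀ z ∈ U, starRingEnd ℂ z ∈ U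
  nU : ∀ z ∈ U, -z ∈ U
  cG : ∀ x y, G (starRingEnd ℂ x) (starRingEnd ℂ y) = G x y
  nG : ∀ x y, G (-x) (-y) = G x y

theorem mk_sy (hMONO : ST_MONO) {U : Set ℂ} {G : ℂ → ℂ → ℝ} (hU : IsOpen U) (hG : IsGreen U G)
    (h : ∀ z, z ∈ U → starRingEnd ℂ z ∈ U ∧ -z ∈ U) : Sy U G := by
  have g1 := comp_green hG (starRingEnd ℂ) Complex.continuous_conj (fun z => Complex.conj_conj z)
    (fun x y => by rw [← map_sub, Complex.norm_conj]) (fun z hz => (h z hz).1)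
    (fun f z => harm_conj)
  have g2 := comp_green hG (fun z => -z) continuous_neg (fun z => neg_neg z)
    (fun x y => by rw [← neg_sub', norm_neg]) (fun z hz => (h z hz).2) (fun f z => harm_neg)
  exact ⟨hU, hG, fun z hz => (h z hz).1, fun z hz => (h z hz).2,
    fun x y => le_antisymm (hMONO U U _ _ hU hU subset_rfl g1 hG x y)
      (hMONO U U _ _ hU hU subset_rfl hG g1 x y),
    fun x y => le_antisymm (hMONO U U _ _ hU hU subset_rfl g2 hG x y)
      (hMONO U U _ _ hU hU subset_rfl hG g2 x y)⟩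

variable {U : Set ℂ} {G : ℂ → ℂ → ℝ}

theorem cont_off (hU : IsOpen U) (hG : IsGreen U G) {x y : ℂ} (hx : x ∈ U) (hy : y ∈ U)
    (hxy : x ≠ y) : ContinuousAt (fun q : ℂ × ℂ => G q.1 q.2) (x, y) := by
  obtain ⟨h, h1, h2, h3⟩ := hG.reg
  have hopen : (U ×ˢ U) ∈ 𝓝 (x, y) := (hU.prod hU).mem_nhds ⟨hx, hy⟩
  have hne : ∀ᶠ q : ℂ × ℂ in 𝓝 (x, y), q.1 ≠ q.2 :=
    (isOpen_ne_fun continuous_fst continuous_snd).mem_nhds hxy
  have hc1 : ContinuousAt (fun q : ℂ × ℂ => h q.1 q.2) (x, y) := h1.continuousAt hopen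
  have hc2 : ContinuousAt (fun q : ℂ × ℂ => (1 / (2 * Real.pi)) * Real.log ‖q.1 - q.2‖) (x, y) := by
    refine ContinuousAt.mul continuousAt_const (ContinuousAt.log (by fun_prop) ?_)
    exact norm_ne_zero_iff.2 (sub_ne_zero.2 hxy)
  refine (hc1.sub hc2).congr ?_
  filter_upwards [hopen, hne] with q hq hq'
  exact (h3 q.1 hq.1 q.2 hq.2 hq').symm

/-- the three reflections -/
theorem Sy.ncU (h : Sy U G) {z : ℂ} (hz : z ∈ U) : -(starRingEnd ℂ z) ∈ U := h.nU _ (h.cU _ hz)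

theorem qd_ne {x y : ℂ} (hx : 0 ≤ x.re ∧ 0 ≤ x.im) (hy : y ∈ Qd) :
    x ≠ starRingEnd ℂ y ∧ x ≠ -(starRingEnd ℂ y) ∧ x ≠ -y := by
  obtain ⟨h1, h2⟩ := hy
  refine ⟨?_, ?_, ?_⟩
  · rintro rfl
    have := hx.2
    simp only [Complex.conj_im] at this
    linarith
  · rintro rfl
    have := hx.1
    simp only [Complex.neg_re, Complex.conj_re] at this
    linarith
  · rintro rfl
    have := hx.1
    simp only [Complex.neg_re] at this
    linarith

theorem cont_fold (h : Sy U G) {x y : ℂ} (hx : x ∈ U) (hy : y ∈ U) (hyQ : y ∈ Qd)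
    (hxn : 0 ≤ x.re ∧ 0 ≤ x.im) (hxy : x ≠ y) :
    ContinuousAt (fun q : ℂ × ℂ => gfold G q.1 q.2) (x, y) := by
  obtain ⟨h1, h2, h3⟩ := qd_ne hxn hyQ
  unfold gfold
  have c0 := cont_off h.op h.gr hx hy hxy
  have c1 : ContinuousAt (fun q : ℂ × ℂ => G q.1 (starRingEnd ℂ q.2)) (x, y) :=
    ContinuousAt.comp (f := fun q : ℂ × ℂ => (q.1, starRingEnd ℂ q.2)) (x := (x, y))
      (cont_off h.op h.gr hx (h.cU y hy) h1)
      (continuous_fst.prodMk (Complex.continuous_conj.comp continuous_snd)).continuousAt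
  have c2 : ContinuousAt (fun q : ℂ × ℂ => G q.1 (-(starRingEnd ℂ q.2))) (x, y) :=
    ContinuousAt.comp (f := fun q : ℂ × ℂ => (q.1, -(starRingEnd ℂ q.2))) (x := (x, y))
      (cont_off h.op h.gr hx (h.ncU hy) h2)
      (continuous_fst.prodMk (Complex.continuous_conj.comp continuous_snd).neg).continuousAt
  have c3 : ContinuousAt (fun q : ℂ × ℂ => G q.1 (-q.2)) (x, y) :=
    ContinuousAt.comp (f := fun q : ℂ × ℂ => (q.1, -q.2)) (x := (x, y))
      (cont_off h.op h.gr hx (h.nU y hy) h3)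
      (continuous_fst.prodMk continuous_snd.neg).continuousAt
  exact ((c0.sub c1).sub c2).add c3

theorem fold_axis (h : Sy U G) {x y : ℂ} (hx : x.re * x.im = 0) : gfold G x y = 0 := by
  unfold gfold
  rcases mul_eq_zero.1 hx with hx | hx
  · have e : -(starRingEnd ℂ x) = x := by
      apply Complex.ext
      · simp [hx]
      · simp
    have e1 : G x (-(starRingEnd ℂ y)) = G x y := by
      conv_lhs => rw [← e]
      rw [h.nG, h.cG]
    have e2 : G x (-y) = G x (starRingEnd ℂ y) := by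
      conv_lhs => rw [← e]
      rw [h.nG, ← h.cG, Complex.conj_conj]
    rw [e1, e2]
    ring
  · have e : starRingEnd ℂ x = x := by
      apply Complex.ext
      · simp
      · simp [hx]
    have e1 : G x (starRingEnd ℂ y) = G x y := by
      conv_lhs => rw [← e]
      rw [h.cG]
    have e2 : G x (-(starRingEnd ℂ y)) = G x (-y) := by
      conv_lhs => rw [← e]
      rw [← map_neg, h.cG]
    rw [e1, e2]
    ring

/-- two-sided smallness near the boundary -/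
theorem small (h : Sy U G) {K : Set ℂ} (hK : K ⊆ U ∩ Qd) (hKc : IsCompact K) {ε : ℝ}
    (hε : 0 < ε) : ∃ K' : Set ℂ, K' ⊆ U ∩ Qd ∧ IsCompact K' ∧
      ∀ y ∈ K, ∀ x ∈ (U ∩ Qd) \ K', |gfold G x y| < ε := by
  set K4 : Set ℂ := K ∪ (starRingEnd ℂ) '' K ∪ (fun z => -(starRingEnd ℂ z)) '' K ∪
    (fun z => -z) '' K with hK4
  have hK4c : IsCompact K4 := by
    refine ((hKc.union (hKc.image Complex.continuous_conj)).union
      (hKc.image Complex.continuous_conj.neg)).union (hKc.image continuous_neg)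
  have hK4U : K4 ⊆ U := by
    rintro z (((hz | ⟨w, hw, rfl⟩) | ⟨w, hw, rfl⟩) | ⟨w, hw, rfl⟩)
    · exact (hK hz).1
    · exact h.cU w (hK hw).1
    · exact h.ncU (hK hw).1
    · exact h.nU w (hK hw).1
  obtain ⟨K'', hK''U, hK''c, hK''⟩ := h.gr.bdry K4 hK4U hK4c (ε / 4) (by linarith)
  set Z : Set ℂ := K'' ∩ {z | 0 ≤ z.re ∧ 0 ≤ z.im ∧ z.re * z.im = 0} with hZ
  have hZcl : IsClosed {z : ℂ | 0 ≤ z.re ∧ 0 ≤ z.im ∧ z.re * z.im = 0} := by
    refine (isClosed_le continuous_const Complex.continuous_re).inter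
      ((isClosed_le continuous_const Complex.continuous_im).inter
        (isClosed_eq (Complex.continuous_re.mul Complex.continuous_im) continuous_const))
  have hZc : IsCompact Z := hK''c.inter_right hZcl
  have hsub : Z ×ˢ K ⊆ interior {q : ℂ × ℂ | |gfold G q.1 q.2| < ε} := by
    rintro ⟨x, y⟩ ⟨hx, hy⟩
    obtain ⟨hx1, hx2, hx3, hx4⟩ := hx
    change x ∈ K'' at hx1
    change y ∈ K at hy
    have hxy : x ≠ y := by
      rintro rfl
      have := (hK hy).2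
      have h5 : 0 < x.re * x.im := mul_pos this.1 this.2
      exact h5.ne' hx4
    rw [mem_interior_iff_mem_nhds]
    have hc := cont_fold h (hK''U hx1) (hK hy).1 (hK hy).2 ⟨hx2, hx3⟩ hxy
    have h0 : |gfold G x y| < ε := by
      rw [fold_axis h hx4, abs_zero]
      exact hε
    exact hc.abs.eventually_lt_const (u := ε) h0
  obtain ⟨u, v, hu, -, hZu, hKv, huv⟩ := generalized_tube_lemma hZc hKc isOpen_interior hsub
  have hQcl : IsClosed {z : ℂ | 0 ≤ z.re ∧ 0 ≤ z.im} :=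
    (isClosed_le continuous_const Complex.continuous_re).inter
      (isClosed_le continuous_const Complex.continuous_im)
  refine ⟨(K'' ∩ {z : ℂ | 0 ≤ z.re ∧ 0 ≤ z.im}) \ u, ?_, (hK''c.inter_right hQcl).diff hu, ?_⟩
  · rintro x ⟨⟨hx1, hx2, hx3⟩, hx4⟩
    have h5 : x.re * x.im ≠ 0 := fun h5 => hx4 (hZu ⟨hx1, hx2, hx3, h5⟩)
    refine ⟨hK''U hx1, lt_of_le_of_ne hx2 (fun h6 => h5 ?_), lt_of_le_of_ne hx3 (fun h6 => h5 ?_)⟩
    · rw [← h6, zero_mul]
    · rw [← h6, mul_zero]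
  · rintro y hy x ⟨⟨hxU, hxQ⟩, hxK⟩
    by_cases hx : x ∈ K''
    · have hxu : x ∈ u := by
        by_contra hcon
        exact hxK ⟨⟨hx, hxQ.1.le, hxQ.2.le⟩, hcon⟩
      have hp : ((x, y) : ℂ × ℂ) ∈ u ×ˢ v := ⟨hxu, hKv hy⟩
      have := interior_subset (huv hp)
      exact this
    · have a0 := hK'' y (Or.inl (Or.inl (Or.inl hy))) x ⟨hxU, hx⟩
      have a1 := hK'' (starRingEnd ℂ y) (Or.inl (Or.inl (Or.inr ⟨y, hy, rfl⟩))) x ⟨hxU, hx⟩
      have a2 := hK'' (-(starRingEnd ℂ y)) (Or.inl (Or.inr ⟨y, hy, rfl⟩)) x ⟨hxU, hx⟩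
      have a3 := hK'' (-y) (Or.inr ⟨y, hy, rfl⟩) x ⟨hxU, hx⟩
      have b0 := h.gr.nonneg x y
      have b1 := h.gr.nonneg x (starRingEnd ℂ y)
      have b2 := h.gr.nonneg x (-(starRingEnd ℂ y))
      have b3 := h.gr.nonneg x (-y)
      unfold gfold
      rw [abs_lt]
      constructor <;> linarith

/-- the regular part -/
def hr (h : ℂ → ℂ → ℝ) (x y : ℂ) : ℝ :=
  h x y - (h x (starRingEnd ℂ y) - (1 / (2 * Real.pi)) * Real.log ‖x - starRingEnd ℂ y‖) -
    (h x (-(starRingEnd ℂ y)) - (1 / (2 * Real.pi)) * Real.log ‖x - -(starRingEnd ℂ y)‖) +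
    (h x (-y) - (1 / (2 * Real.pi)) * Real.log ‖x - -y‖)

theorem hr_eq (hs : Sy U G) {h : ℂ → ℂ → ℝ}
    (h3 : ∀ x ∈ U, ∀ y ∈ U, x ≠ y → G x y = h x y - (1 / (2 * Real.pi)) * Real.log ‖x - y‖)
    {x y : ℂ} (hx : x ∈ U ∩ Qd) (hy : y ∈ U ∩ Qd) (hxy : x ≠ y) :
    gfold G x y = hr h x y - (1 / (2 * Real.pi)) * Real.log ‖x - y‖ := by
  obtain ⟨n1, n2, n3⟩ := qd_ne ⟨hx.2.1.le, hx.2.2.le⟩ hy.2
  unfold gfold hr
  rw [h3 x hx.1 y hy.1 hxy, h3 x hx.1 _ (hs.cU y hy.1) n1, h3 x hx.1 _ (hs.ncU hy.1) n2,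
    h3 x hx.1 _ (hs.nU y hy.1) n3]
  ring

theorem log_harm {x a : ℂ} (h : x ≠ a) :
    HarmonicAt (fun x => (1 / (2 * Real.pi)) * Real.log ‖x - a‖) x := by
  have ha : AnalyticAt ℂ (fun x => x - a) x := analyticAt_id.sub analyticAt_const
  have := (ha.harmonicAt_log_norm (sub_ne_zero.2 h)).const_smul (c := 1 / (2 * Real.pi))
  exact this

theorem hr_harm (hs : Sy U G) {h : ℂ → ℂ → ℝ}
    (h2 : ∀ y ∈ U, HarmonicOnNhd (fun x => h x y) U) {x y : ℂ} (hx : x ∈ U ∩ Qd)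
    (hy : y ∈ U ∩ Qd) : HarmonicAt (fun x => hr h x y) x := by
  obtain ⟨n1, n2, n3⟩ := qd_ne ⟨hx.2.1.le, hx.2.2.le⟩ hy.2
  have a0 := h2 y hy.1 x hx.1
  have a1 := h2 _ (hs.cU y hy.1) x hx.1
  have a2 := h2 _ (hs.ncU hy.1) x hx.1
  have a3 := h2 _ (hs.nU y hy.1) x hx.1
  exact ((a0.sub (a1.sub (log_harm n1))).sub (a2.sub (log_harm n2))).add (a3.sub (log_harm n3))

theorem hr_cont (hs : Sy U G) {h : ℂ → ℂ → ℝ}
    (h1 : ContinuousOn (fun q : ℂ × ℂ => h q.1 q.2) (U ×ˢ U)) :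
    ContinuousOn (fun q : ℂ × ℂ => hr h q.1 q.2) ((U ∩ Qd) ×ˢ (U ∩ Qd)) := by
  have hn : ∀ q ∈ (U ∩ Qd) ×ˢ (U ∩ Qd), q.1 ≠ starRingEnd ℂ q.2 ∧ q.1 ≠ -(starRingEnd ℂ q.2) ∧
      q.1 ≠ -q.2 := fun q hq => qd_ne ⟨hq.1.2.1.le, hq.1.2.2.le⟩ hq.2.2
  have c0 : ContinuousOn (fun q : ℂ × ℂ => h q.1 q.2) ((U ∩ Qd) ×ˢ (U ∩ Qd)) :=
    h1.mono (prod_mono inter_subset_left inter_subset_left)
  have cc : Continuous (fun q : ℂ × ℂ => starRingEnd ℂ q.2) :=
    Complex.continuous_conj.comp continuous_snd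
  have c1 : ContinuousOn (fun q : ℂ × ℂ => h q.1 (starRingEnd ℂ q.2)) ((U ∩ Qd) ×ˢ (U ∩ Qd)) :=
    h1.comp (f := fun q : ℂ × ℂ => (q.1, starRingEnd ℂ q.2)) (continuous_fst.prodMk cc).continuousOn
      (fun q hq => ⟨hq.1.1, hs.cU _ hq.2.1⟩)
  have c2 : ContinuousOn (fun q : ℂ × ℂ => h q.1 (-(starRingEnd ℂ q.2)))
      ((U ∩ Qd) ×ˢ (U ∩ Qd)) :=
    h1.comp (f := fun q : ℂ × ℂ => (q.1, -(starRingEnd ℂ q.2)))
      (continuous_fst.prodMk cc.neg).continuousOn (fun q hq => ⟨hq.1.1, hs.ncU hq.2.1⟩)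
  have c3 : ContinuousOn (fun q : ℂ × ℂ => h q.1 (-q.2)) ((U ∩ Qd) ×ˢ (U ∩ Qd)) :=
    h1.comp (f := fun q : ℂ × ℂ => (q.1, -q.2)) (continuous_fst.prodMk
      continuous_snd.neg).continuousOn (fun q hq => ⟨hq.1.1, hs.nU _ hq.2.1⟩)
  have l1 : ContinuousOn (fun q : ℂ × ℂ => (1 / (2 * Real.pi)) *
      Real.log ‖q.1 - starRingEnd ℂ q.2‖) ((U ∩ Qd) ×ˢ (U ∩ Qd)) :=
    continuousOn_const.mul (ContinuousOn.log (continuous_fst.sub cc).norm.continuousOn
      (fun q hq => norm_ne_zero_iff.2 (sub_ne_zero.2 (hn q hq).1)))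
  have l2 : ContinuousOn (fun q : ℂ × ℂ => (1 / (2 * Real.pi)) *
      Real.log ‖q.1 - -(starRingEnd ℂ q.2)‖) ((U ∩ Qd) ×ˢ (U ∩ Qd)) :=
    continuousOn_const.mul (ContinuousOn.log (continuous_fst.sub cc.neg).norm.continuousOn
      (fun q hq => norm_ne_zero_iff.2 (sub_ne_zero.2 (hn q hq).2.1)))
  have l3 : ContinuousOn (fun q : ℂ × ℂ => (1 / (2 * Real.pi)) *
      Real.log ‖q.1 - -q.2‖) ((U ∩ Qd) ×ˢ (U ∩ Qd)) :=
    continuousOn_const.mul (ContinuousOn.log (continuous_fst.sub continuous_snd.neg).norm.continuousOn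
      (fun q hq => norm_ne_zero_iff.2 (sub_ne_zero.2 (hn q hq).2.2)))
  exact ((c0.sub (c1.sub l1)).sub (c2.sub l2)).add (c3.sub l3)

theorem isOpen_Qd : IsOpen Qd :=
  (isOpen_lt continuous_const Complex.continuous_re).inter
    (isOpen_lt continuous_const Complex.continuous_im)

theorem nonneg (hMP : ST_MP) (hs : Sy U G) {x y : ℂ} (hx : x ∈ U ∩ Qd) (hy : y ∈ U ∩ Qd)
    (hxy : x ≠ y) : 0 ≤ gfold G x y := by
  obtain ⟨h, h1, h2, h3⟩ := hs.gr.reg
  set D := U ∩ Qd with hD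
  have hDo : IsOpen D := hs.op.inter isOpen_Qd
  set f : ℂ → ℝ := fun x => (1 / (2 * Real.pi)) * Real.log ‖x - y‖ - hr h x y with hf
  have hfe : ∀ x ∈ D, x ≠ y → f x = - gfold G x y := by
    intro x hx hxy
    rw [hr_eq hs h3 hx hy hxy, hf]
    ring
  have key : ∀ x ∈ D \ {y}, f x ≤ 0 := by
    refine hMP (D \ {y}) f (hDo.sdiff isClosed_singleton) ?_ ?_
    · rintro x ⟨hx, hxy⟩
      exact (log_harm hxy).sub (hr_harm hs h2 hx hy)
    · intro ε hε
      obtain ⟨K', hK'D, hK'c, hK'⟩ := small hs (K := {y})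
        (Set.singleton_subset_iff.2 hy) isCompact_singleton hε
      have hcont : ContinuousAt (fun x => hr h x y) y := by
        have hp : ((y, y) : ℂ × ℂ) ∈ D ×ˢ D := ⟨hy, hy⟩
        have h4 := (hr_cont hs h1).continuousAt ((hDo.prod hDo).mem_nhds hp)
        exact ContinuousAt.comp (f := fun x : ℂ => (x, y)) (x := y) h4 (by fun_prop)
      have hlog : Tendsto (fun x => (1 / (2 * Real.pi)) * Real.log ‖x - y‖) (𝓝[≠] y) atBot := by
        refine Tendsto.const_mul_atBot (by positivity) ?_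
        have h5 : Tendsto (fun x : ℂ => ‖x - y‖) (𝓝[≠] y) (𝓝[>] 0) := by
          refine tendsto_nhdsWithin_iff.2 ⟨?_, ?_⟩
          · have : Tendsto (fun x : ℂ => ‖x - y‖) (𝓝 y) (𝓝 ‖y - y‖) := by
              apply Continuous.tendsto
              fun_prop
            rw [sub_self, norm_zero] at this
            exact this.mono_left nhdsWithin_le_nhds
          · filter_upwards [self_mem_nhdsWithin] with x hx
            exact norm_pos_iff.2 (sub_ne_zero.2 hx)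
        exact Real.tendsto_log_nhdsGT_zero.comp h5
      have hbot : Tendsto f (𝓝[≠] y) atBot := by
        have h6 : Tendsto (fun x => - hr h x y) (𝓝[≠] y) (𝓝 (- hr h y y)) :=
          (hcont.tendsto.mono_left nhdsWithin_le_nhds).neg
        have h7 := hlog.atBot_add h6
        refine h7.congr (fun x => ?_)
        rw [hf]
        ring
      have hev : ∀ᶠ x in 𝓝[≠] y, f x < ε := hbot.eventually_lt_atBot ε
      rw [eventually_nhdsWithin_iff, Metric.eventually_nhds_iff_ball] at hev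
      obtain ⟨δ, hδ, hball⟩ := hev
      refine ⟨K' \ ball y δ, ?_, hK'c.diff isOpen_ball, ?_⟩
      · rintro x ⟨hx1, hx2⟩
        exact ⟨hK'D hx1, fun h => hx2 (by rw [h]; exact mem_ball_self hδ)⟩
      · rintro x ⟨⟨hx1, hx2⟩, hx3⟩
        by_cases hxb : x ∈ ball y δ
        · exact hball x hxb hx2
        · have hxK : x ∉ K' := fun h => hx3 ⟨h, hxb⟩
          have := hK' y rfl x ⟨hx1, hxK⟩
          rw [hfe x hx1 hx2]
          exact (neg_le_abs _).trans_lt this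
  have := key x ⟨hx, hxy⟩
  rw [hfe x hx hxy] at this
  linarith

open Classical in
/-- the Green function of the quarter domain -/
def gq (U : Set ℂ) (G : ℂ → ℂ → ℝ) (x y : ℂ) : ℝ :=
  if x ∈ U ∩ Qd ∧ y ∈ U ∩ Qd ∧ x ≠ y then gfold G x y else 0

theorem symm (h : Sy U G) {x y : ℂ} (hx : x ∈ U) (hy : y ∈ U) : gfold G x y = gfold G y x := by
  unfold gfold
  have e0 := h.gr.symm x hx y hy
  have e1 : G x (starRingEnd ℂ y) = G y (starRingEnd ℂ x) := by
    rw [h.gr.symm x hx _ (h.cU y hy), ← h.cG, Complex.conj_conj]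
  have e2 : G x (-(starRingEnd ℂ y)) = G y (-(starRingEnd ℂ x)) := by
    rw [h.gr.symm x hx _ (h.ncU hy), ← h.nG, neg_neg, ← h.cG, Complex.conj_conj, map_neg]
  have e3 : G x (-y) = G y (-x) := by
    rw [h.gr.symm x hx _ (h.nU y hy), ← h.nG, neg_neg]
  rw [e0, e1, e2, e3]

theorem green (hMP : ST_MP) (hs : Sy U G) : IsGreen (U ∩ Qd) (gq U G) := by
  obtain ⟨h, h1, h2, h3⟩ := hs.gr.reg
  refine ⟨?_, ?_, ⟨hr h, hr_cont hs h1, fun y hy x hx => hr_harm hs h2 hx hy, ?_⟩, ?_, ?_, ?_⟩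
  · intro x hx y hy
    unfold gq
    by_cases hxy : x = y
    · rw [hxy]
    · rw [if_pos ⟨hx, hy, hxy⟩, if_pos ⟨hy, hx, Ne.symm hxy⟩, symm hs hx.1 hy.1]
  · intro x y
    unfold gq
    split_ifs with hc
    · exact nonneg hMP hs hc.1 hc.2.1 hc.2.2
    · exact le_rfl
  · intro x hx y hy hxy
    unfold gq
    rw [if_pos ⟨hx, hy, hxy⟩]
    exact hr_eq hs h3 hx hy hxy
  · intro K hK hKc ε hε
    obtain ⟨K', hK', hK'c, hK''⟩ := small hs hK hKc hε
    refine ⟨K', hK', hK'c, fun y hy x hx => ?_⟩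
    unfold gq
    split_ifs with hc
    · exact (le_abs_self _).trans_lt (hK'' y hy x hx)
    · exact hε
  · intro x
    unfold gq
    rw [if_neg (fun h => h.2.2 rfl)]
  · intro x y hxy
    unfold gq
    rw [if_neg]
    rintro ⟨a, b, -⟩
    rcases hxy with hc | hc
    · exact hc a
    · exact hc b

end GF2

/-- **GF2** -/
theorem st_GF2 (hMP : ST_MP) (hMONO : ST_MONO) (hGEO : ST_GEO) : ST_GF2 := by
  intro R hR
  obtain ⟨g1, -, g3, g4, g5, -, g7⟩ := hGEO.1 R hR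
  obtain ⟨G, hG⟩ := st_GF1 (Udom R) g1 g3 g4 g5
  have hs := GF2.mk_sy hMONO g1 hG g7
  have hex : ∃ g, IsGreen (Ddom R) g := ⟨_, GF2.green hMP hs⟩
  have : gD (Ddom R) = Classical.choose hex := by
    unfold gD
    rw [dif_pos hex]
  rw [this]
  exact Classical.choose_spec hex

end LEP
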